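import Pool.Agent.Q208.CN.Erg
import Pool.Agent.Q74.CE.Erg2
import Pool.Agent.H165R3.Birk

set_option autoImplicit false

/-!
# Frequencies of words and growth of the continuants for almost all numbers
-/

namespace Pool.Agent.Q208.CN

open Q261.CFD Set Filter Topology MeasureTheory Metric
open scoped ENNReal

/-- the numbers of the unit interval whose digits begin with `w` -/
def cyl (w : List ℕ) : Set ℝ :=
  {y | y ∈ Ioo (0 : ℝ) 1 ∧ ∀ i : ℕ, ∀ h : i < w.length, dig y i = w[i]}

/-- the Gauss measure of a cylinder -/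
noncomputable def mu (w : List ℕ) : ℝ := (gm (cyl w)).toReal

lemma mu_nonneg (w : List ℕ) : 0 ≤ mu w := ENNReal.toReal_nonneg

lemma mu_le_one (w : List ℕ) : mu w ≤ 1 := by
  unfold mu
  have h : gm (cyl w) ≤ 1 := by
    rw [← gm_univ]; exact measure_mono (subset_univ _)
  exact ENNReal.toReal_le_of_le_ofReal zero_le_one (by simpa using h)

lemma measurable_dig (i : ℕ) : Measurable fun y => dig y i := by
  unfold dig digit
  have h1 : Measurable fun y : ℝ => ⌊(gauss^[i] y)⁻¹⌋ :=
    Int.measurable_floor.comp (measurable_gauss.iterate i).inv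
  exact (measurable_of_countable Int.toNat).comp h1

lemma measurableSet_cyl (w : List ℕ) : MeasurableSet (cyl w) := by
  have : cyl w = Ioo 0 1 ∩ ⋂ i : ℕ, ⋂ h : i < w.length, (fun y => dig y i) ⁻¹' {w[i]} := by
    ext y
    simp [cyl]
  rw [this]
  exact measurableSet_Ioo.inter (MeasurableSet.iInter fun i => MeasurableSet.iInter fun h =>
    measurable_dig i (measurableSet_singleton _))

lemma dig_iter (y : ℝ) (n i : ℕ) : dig (gauss^[n] y) i = dig y (n + i) := by
  unfold dig digit
  rw [← Function.iterate_add_apply, add_comm]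

lemma ae_of_gm {p : ℝ → Prop} (h : ∀ᵐ y ∂gm, p y) : ∀ᵐ y ∂(volume.restrict (Ioo (0 : ℝ) 1)), p y := by
  have h1 : (volume.restrict (Ioo (0 : ℝ) 1)) ≪ gm := by
    apply withDensity_absolutelyContinuous'
    · exact measurable_rho.aemeasurable
    · filter_upwards [ae_restrict_mem measurableSet_Ioo] with x hx
      have hl : 0 < Real.log 2 := Real.log_pos (by norm_num)
      have := hx.1
      have h2 : 0 < 1 + x := by linarith
      unfold rho
      rw [Ne, ENNReal.ofReal_eq_zero, not_le]
      positivity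
  exact h1.ae_le h

/-- almost every number has the right frequencies -/
theorem freq (w : List ℕ) : ∀ᵐ y ∂(volume.restrict (Ioo (0 : ℝ) 1)),
    Tendsto (fun N : ℕ => (cnt w (dig y) N : ℝ) / N) atTop (𝓝 (mu w)) := by
  classical
  have h1 := Pool.Agent.H165R3.birkhoff gm_ergodic ((cyl w).indicator fun _ => (1 : ℝ))
    (measurable_const.indicator (measurableSet_cyl w)) ⟨1, fun x => by
      rw [abs_le]
      constructor <;> by_cases hx : x ∈ cyl w <;> simp [hx]⟩
  have h2 : ∫ x, (cyl w).indicator (fun _ => (1 : ℝ)) x ∂gm = mu w := by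
    rw [integral_indicator (measurableSet_cyl w)]
    simp [mu, Measure.real]
  rw [h2] at h1
  filter_upwards [ae_of_gm h1, ae_restrict_mem measurableSet_Ioo,
    ae_restrict_of_ae ae_irrational] with y h3 h4 h5
  refine h3.congr fun N => ?_
  rw [div_eq_inv_mul]
  congr 1
  unfold cnt
  rw [Finset.card_filter]
  push_cast
  apply Finset.sum_congr rfl
  intro n _
  have h6 : gauss^[n] y ∈ cyl w ↔ ∀ i : ℕ, ∀ h : i < w.length, dig y (n + i) = w[i] := by
    simp only [cyl, mem_setOf_eq, dig_iter]
    exact ⟨fun h => h.2, fun h => ⟨iter_mem h5 h4 n, h⟩⟩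
  rw [Set.indicator_apply]
  simp only [h6]

lemma D_eq_prod {y : ℝ} (hy : Irrational y) (hy0 : y ∈ Ioo (0 : ℝ) 1) (N : ℕ) :
    D (pre (dig y) N) (gauss^[N] y) = ∏ j ∈ Finset.range N, gauss^[j] y := by
  induction N with
  | zero => simp [pre_zero]
  | succ N ih =>
    rw [Finset.prod_range_succ, ← ih, pre_succ, D_append]
    obtain ⟨a, ha, h3, h4⟩ := eq_branch (iter_mem hy hy0 N)
    have h5 : dig y N = a := by
      have : digit y N = digit (gauss^[N] y) 0 := rfl
      unfold dig
      rw [this, h3]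
      rfl
    rw [h5, phi_cons, phi_nil, Function.iterate_succ_apply', ← h4, D_cons, D_nil, phi_nil, mul_one,
      ← h4]

lemma integrable_log : Integrable (fun y : ℝ => |Real.log y|) gm := by
  have h1 : IntegrableOn Real.log (Ioo 0 1) volume := by
    have h := intervalIntegral.intervalIntegrable_log' (a := 0) (b := 1)
    rw [intervalIntegrable_iff_integrableOn_Ioo_of_le zero_le_one] at h
    exact h
  have hl : 0 < Real.log 2 := Real.log_pos (by norm_num)
  have h2 : gm ≤ ENNReal.ofReal (Real.log 2)⁻¹ • volume.restrict (Ioo (0 : ℝ) 1) := by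
    rw [← withDensity_const]
    apply withDensity_mono
    filter_upwards [ae_restrict_mem measurableSet_Ioo] with x hx
    apply ENNReal.ofReal_le_ofReal
    have := hx.1
    have h3 : (1 + x)⁻¹ ≤ 1 := inv_le_one_of_one_le₀ (by linarith)
    have : 0 < (Real.log 2)⁻¹ := by positivity
    nlinarith
  exact ((h1.abs).smul_measure ENNReal.ofReal_ne_top).mono_measure h2

/-- the growth of the continuants is at most exponential, almost everywhere -/
theorem growth : ∃ κ : ℕ, 1 ≤ κ ∧ ∀ᵐ y ∂(volume.restrict (Ioo (0 : ℝ) 1)), ∃ n : ℕ, ∀ N : ℕ,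
    q0 (pre (dig y) N) ≤ 2 ^ (κ * (N + n)) := by
  set F : ℝ → ℝ := fun y => |Real.log y| with hF
  have hFm : Measurable F := Real.measurable_log.abs
  have hF0 : ∀ x, 0 ≤ F x := fun x => abs_nonneg _
  have hFi : Integrable F gm := integrable_log
  obtain ⟨c, hc⟩ := exists_nat_gt (∫ x, F x ∂gm)
  have hI0 : 0 ≤ ∫ x, F x ∂gm := integral_nonneg hF0
  have hc0 : (0 : ℝ) < c := lt_of_le_of_lt hI0 hc
  set A : Set ℝ := {y | ∃ n : ℕ, ∀ N : ℕ, ∑ j ∈ Finset.range N, F (gauss^[j] y) ≤ c * N + n}
    with hA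
  have hAm : MeasurableSet A := by
    have : A = ⋃ n : ℕ, ⋂ N : ℕ, {y | ∑ j ∈ Finset.range N, F (gauss^[j] y) ≤ c * N + n} := by
      ext y; simp [hA]
    rw [this]
    refine MeasurableSet.iUnion fun n => MeasurableSet.iInter fun N => ?_
    exact measurableSet_le (Finset.measurable_sum _ fun j _ =>
      hFm.comp (measurable_gauss.iterate j)) measurable_const
  have hinv : gauss ⁻¹' A = A := by
    ext y
    constructor
    · rintro ⟨n, hn⟩
      obtain ⟨m, hm⟩ := exists_nat_ge (F y)
      refine ⟨n + m, fun N => ?_⟩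
      cases N with
      | zero => simp; positivity
      | succ N =>
        rw [Finset.sum_range_succ']
        have h1 := hn N
        simp only [Function.iterate_succ_apply, Function.iterate_zero, id_eq]
        push_cast
        linarith
    · rintro ⟨n, hn⟩
      refine ⟨n + c, fun N => ?_⟩
      have h1 := hn (N + 1)
      rw [Finset.sum_range_succ'] at h1
      simp only [Function.iterate_succ_apply, Function.iterate_zero, id_eq] at h1
      push_cast at h1 ⊢
      linarith [hF0 y]
  have hmax := Pool.Agent.Q74.CE.maximal gm_preserving F hFm hFi hF0 hc0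
  have hne : gm A ≠ 0 := by
    intro h0
    have h1 : gm (A ∪ {x | ∃ n : ℕ, n * (c : ℝ) < ∑ j ∈ Finset.range n, F (gauss^[j] x)}) = 1 := by
      have : A ∪ {x | ∃ n : ℕ, n * (c : ℝ) < ∑ j ∈ Finset.range n, F (gauss^[j] x)} = univ := by
        rw [eq_univ_iff_forall]
        intro x
        by_cases hx : ∃ n : ℕ, n * (c : ℝ) < ∑ j ∈ Finset.range n, F (gauss^[j] x)
        · exact Or.inr hx
        · left
          push Not at hx
          refine ⟨0, fun N => ?_⟩
          have := hx N
          simp only [Nat.cast_zero, add_zero]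
          linarith
      rw [this, gm_univ]
    have h2 := measure_union_le (μ := gm) A
      {x | ∃ n : ℕ, n * (c : ℝ) < ∑ j ∈ Finset.range n, F (gauss^[j] x)}
    rw [h1, h0, zero_add] at h2
    have h3 := h2.trans hmax
    have h4 : ENNReal.ofReal ((∫ x, F x ∂gm) / c) < 1 := by
      rw [← ENNReal.ofReal_one]
      apply (ENNReal.ofReal_lt_ofReal_iff one_pos).2
      rw [div_lt_one hc0]
      exact hc
    exact absurd h3 (not_le.2 h4)
  have hfull : ∀ᵐ y ∂gm, y ∈ A := by
    rcases gm_ergodic.toPreErgodic.ae_empty_or_univ hAm hinv with h | h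
    · exact absurd (ae_eq_empty.1 h) hne
    · filter_upwards [h] with y hy
      have : (y ∈ A) = (y ∈ (univ : Set ℝ)) := hy
      rw [this]
      trivial
  refine ⟨2 * (c + 1), by omega, ?_⟩
  filter_upwards [ae_of_gm hfull, ae_restrict_mem measurableSet_Ioo,
    ae_restrict_of_ae ae_irrational] with y h3 h4 h5
  obtain ⟨n, hn⟩ := h3
  refine ⟨n, fun N => ?_⟩
  have hp := (dig_spec h5 h4 N).1
  have hy := iter_mem h5 h4 N
  have hq : (1 : ℝ) ≤ q0 (pre (dig y) N) := by exact_mod_cast q0_pos hp
  have h6 : (q0 (pre (dig y) N) : ℝ) ≤ (D (pre (dig y) N) (gauss^[N] y))⁻¹ := by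
    rw [D_eq hp hy.1.le, inv_inv]
    have := hy.1
    have : (0 : ℝ) ≤ q1 (pre (dig y) N) * gauss^[N] y := by positivity
    linarith
  have h7 : (D (pre (dig y) N) (gauss^[N] y))⁻¹ =
      Real.exp (∑ j ∈ Finset.range N, F (gauss^[j] y)) := by
    rw [D_eq_prod h5 h4, Real.exp_sum, ← Finset.prod_inv_distrib]
    apply Finset.prod_congr rfl
    intro j _
    have hj := iter_mem h5 h4 j
    simp only [hF]
    rw [abs_of_neg (Real.log_neg hj.1 hj.2), Real.exp_neg, Real.exp_log hj.1]
  have h8 : (q0 (pre (dig y) N) : ℝ) ≤ 2 ^ (2 * (c + 1) * (N + n)) := by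
    rw [h7] at h6
    refine h6.trans ((Real.exp_le_exp.2 (hn N)).trans ?_)
    have h9 : Real.exp 1 ≤ 2 ^ 2 := by
      have := Real.exp_one_lt_d9
      linarith
    have h10 : (c : ℝ) * N + n ≤ ((c + 1) * (N + n) : ℕ) := by
      push_cast
      nlinarith [Nat.cast_nonneg (α := ℝ) N, Nat.cast_nonneg (α := ℝ) n]
    calc Real.exp (c * N + n) ≤ Real.exp ((c + 1) * (N + n) : ℕ) := Real.exp_le_exp.2 h10
      _ = Real.exp 1 ^ ((c + 1) * (N + n)) := by rw [← Real.exp_nat_mul, mul_one]
      _ ≤ (2 ^ 2) ^ ((c + 1) * (N + n)) := pow_le_pow_left₀ (Real.exp_pos _).le h9 _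
      _ = 2 ^ (2 * (c + 1) * (N + n)) := by rw [← pow_mul, mul_assoc]
  exact_mod_cast h8

end Pool.Agent.Q208.CN
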