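import Pool.Agent.Q208.CN.Typ

set_option autoImplicit false

/-!
# Counting the fractions with a given denominator in a set
-/

namespace Pool.Agent.Q208.CN

open Q261.CFD Set Filter Topology MeasureTheory Metric
open scoped ENNReal

/-- `P / d` lies in an interval of length at least `1 / (2 d)` that is almost contained in `B` -/
def Near (d : ℕ) (B : Set ℝ) (P : ℕ) : Prop :=
  ∃ α β : ℝ, α ≤ (P : ℝ) / d ∧ (P : ℝ) / d ≤ β ∧ 1 / (2 * (d : ℝ)) ≤ β - α ∧
    volume (Ioo α β \ B) = 0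

theorem card_near {d : ℕ} (hd : 1 ≤ d) {B : Set ℝ} (hB : MeasurableSet B) {S : Finset ℕ}
    (hS : ∀ P ∈ S, Near d B P) {δ : ℝ} (hδ : 0 ≤ δ) (h : volume B ≤ ENNReal.ofReal δ) :
    (S.card : ℝ) ≤ 4 * d * δ := by
  have hd' : (1 : ℝ) ≤ d := by exact_mod_cast hd
  set h0 : ℝ := 1 / (4 * (d : ℝ)) with hh0
  have h0p : 0 < h0 := by positivity
  set J : ℕ → Set ℝ := fun P => Icc ((P : ℝ) / d - h0) ((P : ℝ) / d + h0) with hJ
  have hlow : ∀ P ∈ S, ENNReal.ofReal h0 ≤ volume (B ∩ J P) := by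
    intro P hP
    obtain ⟨α, β, h1, h2, h3, h4⟩ := hS P hP
    have h5 : 1 / (2 * (d : ℝ)) = 2 * h0 := by
      rw [hh0]; field_simp; norm_num
    rw [h5] at h3
    have key : ∀ x : ℝ, Ioo x (x + h0) ⊆ Ioo α β → Ioo x (x + h0) ⊆ J P →
        ENNReal.ofReal h0 ≤ volume (B ∩ J P) := by
      intro x hx1 hx2
      have h6 : volume (Ioo x (x + h0)) = ENNReal.ofReal h0 := by
        rw [Real.volume_Ioo, add_sub_cancel_left]
      rw [← h6]
      have h7 : volume (Ioo x (x + h0) \ B) = 0 :=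
        measure_mono_null (diff_subset_diff_left hx1) h4
      have h8 : volume (Ioo x (x + h0)) ≤ volume (Ioo x (x + h0) ∩ B) := by
        have := measure_inter_add_diff (μ := (volume : Measure ℝ)) (Ioo x (x + h0)) hB
        rw [h7, add_zero] at this
        exact this.ge
      exact h8.trans (measure_mono fun z hz => ⟨hz.2, hx2 hz.1⟩)
    rcases le_or_gt h0 (β - (P : ℝ) / d) with h6 | h6
    · apply key ((P : ℝ) / d)
      · exact Ioo_subset_Ioo h1 (by linarith)
      · exact Ioo_subset_Icc_self.trans (Icc_subset_Icc (by linarith) le_rfl)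
    · apply key ((P : ℝ) / d - h0)
      · exact Ioo_subset_Ioo (by linarith) (by linarith)
      · exact Ioo_subset_Icc_self.trans (Icc_subset_Icc le_rfl (by linarith))
  have hsum : ∑ P ∈ S, volume (B ∩ J P) ≤ volume B := by
    rw [← measure_biUnion_finset]
    · exact measure_mono (iUnion₂_subset fun P _ => inter_subset_left)
    · intro P _ R _ hPR
      rw [Function.onFun, Set.disjoint_left]
      rintro x ⟨-, hx1⟩ ⟨-, hx2⟩
      rw [hJ, mem_Icc] at hx1 hx2
      have h6 : |(P : ℝ) / d - R / d| ≤ 2 * h0 := by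
        rw [abs_le]; constructor <;> linarith [hx1.1, hx1.2, hx2.1, hx2.2]
      have h7 : (1 : ℝ) ≤ |(P : ℝ) - R| := by
        have : (1 : ℤ) ≤ |(P : ℤ) - R| := by
          apply Int.one_le_abs
          intro h8
          apply hPR
          omega
        exact_mod_cast this
      rw [← sub_div, abs_div, abs_of_pos (by linarith : (0:ℝ) < d), div_le_iff₀ (by linarith)] at h6
      have h8 : 2 * h0 * d = 1 / 2 := by rw [hh0]; field_simp; norm_num
      linarith
    · intro P _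
      exact hB.inter measurableSet_Icc
  have h1 : (S.card : ℝ≥0∞) * ENNReal.ofReal h0 ≤ ENNReal.ofReal δ := by
    calc (S.card : ℝ≥0∞) * ENNReal.ofReal h0 = ∑ P ∈ S, ENNReal.ofReal h0 := by
          rw [Finset.sum_const, nsmul_eq_mul]
      _ ≤ ∑ P ∈ S, volume (B ∩ J P) := Finset.sum_le_sum hlow
      _ ≤ volume B := hsum
      _ ≤ _ := h
  rw [← ENNReal.ofReal_natCast, ← ENNReal.ofReal_mul (by positivity),
    ENNReal.ofReal_le_ofReal_iff hδ] at h1
  have h2 : (S.card : ℝ) = S.card * h0 * (4 * d) := by rw [hh0]; field_simp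
  rw [h2]
  nlinarith

/-! ### fractions with a prime power as denominator -/

theorem coprime_count {p k : ℕ} (hp : p.Prime) {α β : ℝ} (hα : 0 ≤ α) (hβ : β ≤ 1) :
    (β - α) * ((p ^ k : ℕ) : ℝ) / 2 - 5 / 2 ≤ (((Finset.range (p ^ k)).filter fun P : ℕ =>
      Nat.Coprime P (p ^ k) ∧ (P : ℝ) / ((p ^ k : ℕ) : ℝ) ∈ Ioo α β).card : ℝ) := by
  set d : ℕ := p ^ k with hd
  have hd1 : 1 ≤ d := Nat.one_le_pow _ _ hp.pos
  have hd' : (0 : ℝ) < d := by exact_mod_cast hd1
  set f : ℕ → ℕ := fun i => if p ∣ 2 * i then 2 * i + 1 else 2 * i with hf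
  set T : Finset ℕ := Finset.Ico (⌊α * d / 2⌋₊ + 1) ⌊(β * d - 1) / 2⌋₊ with hT
  have hinj : ∀ i j, f i = f j → i = j := by
    intro i j h
    simp only [hf] at h
    split_ifs at h <;> omega
  have hmem : ∀ i ∈ T, f i ∈ (Finset.range d).filter fun P : ℕ =>
      Nat.Coprime P d ∧ (P : ℝ) / (d : ℝ) ∈ Ioo α β := by
    intro i hi
    rw [hT, Finset.mem_Ico] at hi
    have h1 : α * d / 2 < i := by
      have := Nat.lt_of_floor_lt (Nat.lt_of_succ_le hi.1)
      exact this
    have h2 : ((i : ℝ) + 1) ≤ (β * d - 1) / 2 := by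
      have h3 : i + 1 ≤ ⌊(β * d - 1) / 2⌋₊ := hi.2
      have h4 : 0 < ⌊(β * d - 1) / 2⌋₊ := by omega
      have h5 : (0 : ℝ) ≤ (β * d - 1) / 2 := by
        by_contra h
        rw [Nat.floor_of_nonpos (not_le.1 h).le] at h4
        omega
      have h6 := Nat.floor_le h5
      have h7 : ((i + 1 : ℕ) : ℝ) ≤ ⌊(β * d - 1) / 2⌋₊ := by exact_mod_cast h3
      push_cast at h7
      linarith
    have hfb : 2 * i ≤ f i ∧ f i ≤ 2 * i + 1 := by
      simp only [hf]; split_ifs <;> omega
    have hf1 : (2 * i : ℝ) ≤ f i := by exact_mod_cast hfb.1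
    have hf2 : (f i : ℝ) ≤ 2 * i + 1 := by exact_mod_cast hfb.2
    have h3 : (f i : ℝ) < d := by nlinarith
    rw [Finset.mem_filter, Finset.mem_range]
    refine ⟨by exact_mod_cast h3, ?_, ?_, ?_⟩
    · rw [hd]
      apply Nat.Coprime.pow_right
      rw [Nat.coprime_comm, hp.coprime_iff_not_dvd]
      simp only [hf]
      split_ifs with h
      · intro h4
        have h5 := (Nat.dvd_add_right h).1 h4
        exact hp.one_lt.ne' (Nat.dvd_one.1 h5)
      · exact h
    · rw [lt_div_iff₀ hd']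
      linarith
    · rw [div_lt_iff₀ hd']
      linarith
  have hcard : T.card ≤ ((Finset.range d).filter fun P : ℕ =>
      Nat.Coprime P d ∧ (P : ℝ) / (d : ℝ) ∈ Ioo α β).card :=
    Finset.card_le_card_of_injOn f hmem fun i _ j _ h => hinj i j h
  have h1 : (β - α) * d / 2 - 5 / 2 ≤ (T.card : ℝ) := by
    rw [hT, Nat.card_Ico]
    have h2 : ((β * d - 1) / 2 : ℝ) - 1 < ⌊(β * d - 1) / 2⌋₊ := Nat.sub_one_lt_floor _
    have h3 : (⌊α * d / 2⌋₊ : ℝ) ≤ α * d / 2 := Nat.floor_le (by positivity)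
    have h4 : ((⌊(β * d - 1) / 2⌋₊ : ℝ) - (⌊α * d / 2⌋₊ + 1)) ≤
        ((⌊(β * d - 1) / 2⌋₊ - (⌊α * d / 2⌋₊ + 1) : ℕ) : ℝ) := by
      have := Nat.sub_le_iff_le_add.1 (le_refl (⌊(β * d - 1) / 2⌋₊ - (⌊α * d / 2⌋₊ + 1)))
      have h5 : (⌊(β * d - 1) / 2⌋₊ : ℝ) ≤
        ((⌊(β * d - 1) / 2⌋₊ - (⌊α * d / 2⌋₊ + 1) : ℕ) : ℝ) + (⌊α * d / 2⌋₊ + 1) := by
        exact_mod_cast this
      linarith
    refine le_trans ?_ h4
    linarith
  exact h1.trans (by exact_mod_cast hcard)

/-- the products of a basic sequence have arbitrarily large prime power divisors -/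
theorem exists_primePow {q : ℕ → ℕ} (hq : ∀ n, 2 ≤ q n) (X Z : ℕ) :
    ∃ m p k : ℕ, Z ≤ m ∧ p.Prime ∧ X ≤ p ^ k ∧ p ^ k ∣ ∏ i ∈ Finset.range m, q i := by
  by_contra hcon
  push Not at hcon
  have hX : 1 ≤ X := by
    by_contra h0
    have := hcon Z 2 0 le_rfl Nat.prime_two (by omega)
    simp at this
  have hb : ∀ m, Z ≤ m → ∏ i ∈ Finset.range m, q i ≤ X ^ X := by
    intro m hm
    set b := ∏ i ∈ Finset.range m, q i with hbd
    have hb0 : b ≠ 0 := Finset.prod_ne_zero_iff.2 fun i _ => by have := hq i; omega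
    have h1 := Nat.factorization_prod_pow_eq_self hb0
    rw [Finsupp.prod] at h1
    have h2 : ∀ p ∈ b.factorization.support, p ^ b.factorization p < X := by
      intro p hp
      have hpp : p.Prime := Nat.prime_of_mem_primeFactors (by simpa using hp)
      by_contra h3
      exact hcon m p _ hm hpp (not_lt.1 h3) (Nat.ordProj_dvd b p)
    have h3 : b.factorization.support ⊆ Finset.range X := by
      intro p hp
      have h4 := h2 p hp
      have h5 : b.factorization p ≠ 0 := Finsupp.mem_support_iff.1 hp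
      rw [Finset.mem_range]
      refine lt_of_le_of_lt ?_ h4
      exact Nat.le_self_pow h5 p
    calc b = ∏ p ∈ b.factorization.support, p ^ b.factorization p := h1.symm
      _ ≤ ∏ _p ∈ b.factorization.support, X := Finset.prod_le_prod' fun p hp => (h2 p hp).le
      _ = X ^ b.factorization.support.card := by rw [Finset.prod_const]
      _ ≤ X ^ X := Nat.pow_le_pow_right hX (by
        have := Finset.card_le_card h3
        rwa [Finset.card_range] at this)
  have h1 := hb (Z + X ^ X) (by omega)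
  have h2 : 2 ^ (Z + X ^ X) ≤ ∏ i ∈ Finset.range (Z + X ^ X), q i := by
    have := Finset.prod_le_prod' (s := Finset.range (Z + X ^ X)) fun i _ => hq i
    simpa using this
  have h3 : Z + X ^ X < 2 ^ (Z + X ^ X) := Nat.lt_two_pow_self
  omega

end Pool.Agent.Q208.CN
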