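import Mathlib

set_option autoImplicit false

/-!
# Occurrences of a word in a word
-/

namespace Pool.Agent.Q208.CN

/-- the number of occurrences of `w` in a word -/
def occ (w : List ℕ) : List ℕ → ℕ
  | [] => 0
  | a :: v => (if w <+: a :: v then 1 else 0) + occ w v

@[simp] lemma occ_nil (w : List ℕ) : occ w [] = 0 := rfl
lemma occ_cons (w : List ℕ) (a : ℕ) (v : List ℕ) :
    occ w (a :: v) = (if w <+: a :: v then 1 else 0) + occ w v := rfl

lemma occ_le (w v : List ℕ) : occ w v ≤ v.length := by
  induction v with
  | nil => simp
  | cons a v ih =>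
    rw [occ_cons, List.length_cons]
    split_ifs <;> omega

lemma occ_concat {w : List ℕ} (hw : w ≠ []) (v : List ℕ) (a : ℕ) :
    occ w (v ++ [a]) = occ w v + if w <:+ v ++ [a] then 1 else 0 := by
  induction v with
  | nil =>
    rw [List.nil_append, occ_cons, occ_nil, zero_add, add_zero]
    have : w <+: [a] ↔ w <:+ [a] := by
      constructor
      · intro h
        have h1 := h.length_le
        have h2 := List.length_pos_iff.2 hw
        have h3 := h.eq_of_length (by simp at h1 ⊢; omega)
        rw [h3]
      · intro h
        have h1 := h.length_le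
        have h2 := List.length_pos_iff.2 hw
        have h3 := h.eq_of_length (by simp at h1 ⊢; omega)
        rw [h3]
    simp only [this]
  | cons b v ih =>
    rw [List.cons_append, occ_cons, ih, occ_cons]
    have h1 : w <+: b :: (v ++ [a]) ↔ (w = b :: (v ++ [a]) ∨ w <+: b :: v) := by
      rw [← List.cons_append, List.prefix_concat_iff]
    have h2 : w <:+ b :: (v ++ [a]) ↔ (w = b :: (v ++ [a]) ∨ w <:+ v ++ [a]) := by
      rw [List.suffix_cons_iff]
    by_cases h3 : w = b :: (v ++ [a])
    · have h4 : ¬ w <+: b :: v := fun h => by
        have := h.length_le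
        rw [h3] at this
        simp at this
      have h5 : ¬ w <:+ v ++ [a] := fun h => by
        have := h.length_le
        rw [h3] at this
        simp at this
      simp only [h1, h2, if_neg h4, if_neg h5, if_pos (Or.inl h3)]
      omega
    · have h4 : w <+: b :: (v ++ [a]) ↔ w <+: b :: v := by rw [h1]; simp [h3]
      have h5 : w <:+ b :: (v ++ [a]) ↔ w <:+ v ++ [a] := by rw [h2]; simp [h3]
      simp only [h4, h5]
      omega

lemma occ_reverse {w : List ℕ} (hw : w ≠ []) (v : List ℕ) :
    occ w.reverse v.reverse = occ w v := by
  induction v with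
  | nil => simp
  | cons a v ih =>
    have hw' : w.reverse ≠ [] := by simpa using hw
    rw [List.reverse_cons, occ_concat hw', ih, occ_cons, ← List.reverse_cons]
    have : w.reverse <:+ (a :: v).reverse ↔ w <+: a :: v := List.reverse_suffix
    simp only [this]
    omega

lemma occ_append_ge (w u v : List ℕ) : occ w u + occ w v ≤ occ w (u ++ v) := by
  induction u with
  | nil => simp
  | cons a u ih =>
    rw [List.cons_append, occ_cons, occ_cons]
    have h1 : w <+: a :: u → w <+: a :: (u ++ v) := fun h =>
      h.trans (by rw [← List.cons_append]; exact List.prefix_append _ _)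
    split_ifs with h2 h3 h3
    · omega
    · exact absurd (h1 h2) h3
    · omega
    · omega

lemma occ_append_le (w u v : List ℕ) :
    occ w (u ++ v) ≤ occ w u + occ w v + min u.length w.length := by
  induction u with
  | nil => simp
  | cons a u ih =>
    rw [List.cons_append, occ_cons, occ_cons, List.length_cons]
    by_cases h0 : w.length ≤ u.length + 1
    · have h1 : w <+: a :: (u ++ v) ↔ w <+: a :: u := by
        constructor
        · intro h
          have h2 : a :: u <+: a :: (u ++ v) := by
            rw [← List.cons_append]; exact List.prefix_append _ _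
          exact List.prefix_of_prefix_length_le h h2 (by simpa using h0)
        · intro h
          exact h.trans (by rw [← List.cons_append]; exact List.prefix_append _ _)
      simp only [h1]
      split_ifs <;> omega
    · split_ifs <;> omega

/-- the first `N` terms -/
def pre (a : ℕ → ℕ) (N : ℕ) : List ℕ := (List.range N).map a

@[simp] lemma pre_length (a : ℕ → ℕ) (N : ℕ) : (pre a N).length = N := by simp [pre]

lemma pre_zero (a : ℕ → ℕ) : pre a 0 = [] := rfl

lemma pre_succ (a : ℕ → ℕ) (N : ℕ) : pre a (N + 1) = pre a N ++ [a N] := by
  simp [pre, List.range_succ]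

lemma pre_add (a : ℕ → ℕ) (M N : ℕ) : pre a (M + N) = pre a M ++ pre (fun i => a (M + i)) N := by
  induction N with
  | zero => simp [pre_zero]
  | succ N ih => rw [← add_assoc, pre_succ, ih, pre_succ, List.append_assoc]

lemma pre_cons (a : ℕ → ℕ) (N : ℕ) : pre a (N + 1) = a 0 :: pre (fun i => a (i + 1)) N := by
  rw [add_comm, pre_add]
  have : (fun i => a (1 + i)) = fun i => a (i + 1) := by funext i; rw [add_comm]
  rw [this]
  rfl

/-- the number of `n < N` such that the word `w` is read at the position `n` -/
def cnt (w : List ℕ) (a : ℕ → ℕ) (N : ℕ) : ℕ :=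
  ((Finset.range N).filter fun n => ∀ i : ℕ, ∀ h : i < w.length, a (n + i) = w[i]).card

lemma pre_eq_iff (w : List ℕ) (a : ℕ → ℕ) :
    pre a w.length = w ↔ ∀ i : ℕ, ∀ h : i < w.length, a i = w[i] := by
  constructor
  · intro h i hi
    have : (pre a w.length)[i]'(by simpa using hi) = w[i] := by simp only [h]
    rw [← this]
    simp [pre]
  · intro h
    apply List.ext_getElem
    · simp
    · intro i h1 h2
      simp only [pre, List.getElem_map, List.getElem_range]
      exact h i h2

lemma suffix_pre_iff (w : List ℕ) (a : ℕ → ℕ) (n : ℕ) :
    w <:+ pre a (n + w.length) ↔ ∀ i : ℕ, ∀ h : i < w.length, a (n + i) = w[i] := by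
  rw [pre_add, ← pre_eq_iff w fun i => a (n + i)]
  constructor
  · intro h
    have h1 : pre (fun i => a (n + i)) w.length <:+ pre a n ++ pre (fun i => a (n + i)) w.length :=
      List.suffix_append _ _
    have h2 := List.suffix_of_suffix_length_le h h1 (by simp)
    exact (h2.eq_of_length (by simp)).symm
  · intro h
    rw [h]
    exact List.suffix_append _ _

lemma cnt_eq {w : List ℕ} (hw : w ≠ []) (a : ℕ → ℕ) (N : ℕ) :
    cnt w a N = occ w (pre a (N + w.length - 1)) := by
  have hl := List.length_pos_iff.2 hw
  induction N with
  | zero =>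
    simp only [cnt, Finset.range_zero, Finset.filter_empty, Finset.card_empty, zero_add]
    symm
    have key : ∀ v : List ℕ, v.length < w.length → occ w v = 0 := by
      intro v
      induction v with
      | nil => intro _; rfl
      | cons b v ih =>
        intro h
        rw [occ_cons, ih (by rw [List.length_cons] at h; omega), if_neg]
        intro h1
        have := h1.length_le
        omega
    apply key
    rw [pre_length]
    omega
  | succ N ih =>
    have h1 : N + 1 + w.length - 1 = (N + w.length - 1) + 1 := by omega
    rw [h1, pre_succ, occ_concat hw, ← ih, ← pre_succ]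
    have h2 : N + w.length - 1 + 1 = N + w.length := by omega
    rw [h2]
    simp only [suffix_pre_iff]
    unfold cnt
    rw [Finset.range_add_one, Finset.filter_insert]
    split_ifs with h3
    · rw [Finset.card_insert_of_notMem (by simp)]
    · simp

lemma cnt_ge {w : List ℕ} (hw : w ≠ []) (a : ℕ → ℕ) (N : ℕ) : occ w (pre a N) ≤ cnt w a N := by
  have hl := List.length_pos_iff.2 hw
  rw [cnt_eq hw]
  have h1 : N + w.length - 1 = N + (w.length - 1) := by omega
  rw [h1, pre_add]
  have := occ_append_ge w (pre a N) (pre (fun i => a (N + i)) (w.length - 1))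
  omega

lemma cnt_le {w : List ℕ} (hw : w ≠ []) (a : ℕ → ℕ) (N : ℕ) :
    cnt w a N ≤ occ w (pre a N) + 2 * w.length := by
  have hl := List.length_pos_iff.2 hw
  rw [cnt_eq hw]
  have h1 : N + w.length - 1 = N + (w.length - 1) := by omega
  rw [h1, pre_add]
  have h2 := occ_append_le w (pre a N) (pre (fun i => a (N + i)) (w.length - 1))
  have h3 := occ_le w (pre (fun i => a (N + i)) (w.length - 1))
  rw [pre_length] at h2 h3
  omega

end Pool.Agent.Q208.CN
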