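import Pool.Agent.Q208.CN.Inv
import Pool.Agent.Q208.CN.Occ

set_option autoImplicit false

/-!
# The Gauss map is ergodic
-/

namespace Pool.Agent.Q208.CN

open Q261.CFD Set Filter Topology MeasureTheory Metric
open scoped ENNReal

/-- the digits as natural numbers -/
noncomputable def dig (y : ℝ) (n : ℕ) : ℕ := (digit y n).toNat

lemma dig_spec {y : ℝ} (hy : Irrational y) (hy0 : y ∈ Ioo (0 : ℝ) 1) (N : ℕ) :
    Pos (pre (dig y) N) ∧ y = phi (pre (dig y) N) (gauss^[N] y) := by
  induction N with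
  | zero => exact ⟨fun a ha => by simp [pre_zero] at ha, rfl⟩
  | succ N ih =>
    obtain ⟨h1, h2⟩ := ih
    obtain ⟨a, ha, h3, h4⟩ := eq_branch (iter_mem hy hy0 N)
    have h5 : dig y N = a := by
      have : digit y N = digit (gauss^[N] y) 0 := rfl
      unfold dig
      rw [this, h3]
      rfl
    refine ⟨?_, ?_⟩
    · rw [pre_succ]
      apply h1.append
      intro b hb
      rw [List.mem_singleton.1 hb, h5]
      exact ha
    · rw [pre_succ, phi_append, h5, phi_cons, phi_nil, Function.iterate_succ_apply', ← h4]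
      exact h2

/-- the image of the unit interval lies in the closed ball spanned by the images of `0`, `1` -/
lemma phi_mem_ball {w : List ℕ} (hw : Pos w) {y : ℝ} (hy : y ∈ Icc (0 : ℝ) 1) :
    phi w y ∈ closedBall ((phi w 0 + phi w 1) / 2) (|phi w 0 - phi w 1| / 2) := by
  have hq : (1 : ℝ) ≤ q0 w := by exact_mod_cast q0_pos hw
  have hq1 : (0 : ℝ) ≤ q1 w := Nat.cast_nonneg _
  have h1 : |phi w y - phi w 0| ≤ |phi w 0 - phi w 1| := by
    rw [phi_dist_eq hw hy.1 le_rfl, phi_dist_eq hw le_rfl zero_le_one]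
    rw [abs_of_nonneg (by linarith [hy.1] : (0:ℝ) ≤ y - 0)]
    have h0 : 0 < (q0 w + q1 w * y : ℝ) := by have := hy.1; positivity
    rw [div_le_div_iff₀ (by positivity) (by positivity)]
    norm_num
    have := hy.1
    have := hy.2
    have h3 : y * (q0 w + q1 w) ≤ q0 w + q1 w * y := by nlinarith
    nlinarith
  have h2 : |phi w y - phi w 1| ≤ |phi w 0 - phi w 1| := by
    rw [phi_dist_eq hw hy.1 zero_le_one, phi_dist_eq hw le_rfl zero_le_one]
    have h0 : 0 < (q0 w + q1 w * y : ℝ) := by have := hy.1; positivity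
    rw [abs_of_nonpos (by linarith [hy.2] : y - 1 ≤ 0)]
    rw [div_le_div_iff₀ (by positivity) (by positivity)]
    norm_num
    have := hy.1
    have := hy.2
    have h3 : (1 - y) * q0 w ≤ q0 w + q1 w * y := by nlinarith [mul_nonneg hq1 hy.1]
    nlinarith
  rw [mem_closedBall, Real.dist_eq]
  rw [abs_le] at h1 h2 ⊢
  rcases abs_cases (phi w 0 - phi w 1) with ⟨h3, -⟩ | ⟨h3, -⟩ <;> rw [h3] at h1 h2 ⊢ <;>
    constructor <;> linarith

lemma length_eq {w : List ℕ} (hw : Pos w) :
    |phi w 0 - phi w 1| = ((q0 w : ℝ) * (q0 w + q1 w))⁻¹ := by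
  rw [phi_dist_eq hw le_rfl zero_le_one]
  rw [mul_zero, add_zero, mul_one, zero_sub, abs_neg, abs_one, one_div]

lemma length_pos' {w : List ℕ} (hw : Pos w) : 0 < |phi w 0 - phi w 1| := by
  have hq : (1 : ℝ) ≤ q0 w := by exact_mod_cast q0_pos hw
  have hq1 : (0 : ℝ) ≤ q1 w := Nat.cast_nonneg _
  rw [length_eq hw]
  positivity

lemma length_le {w : List ℕ} (hw : Pos w) : |phi w 0 - phi w 1| ≤ ((q0 w : ℝ) ^ 2)⁻¹ := by
  have hq : (1 : ℝ) ≤ q0 w := by exact_mod_cast q0_pos hw
  have hq1 : (0 : ℝ) ≤ q1 w := Nat.cast_nonneg _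
  rw [length_eq hw]
  apply inv_anti₀ (by positivity)
  nlinarith

lemma length_ge {w : List ℕ} (hw : Pos w) : (2 * (q0 w : ℝ) ^ 2)⁻¹ ≤ |phi w 0 - phi w 1| := by
  have hq : (1 : ℝ) ≤ q0 w := by exact_mod_cast q0_pos hw
  have hq1 : (q1 w : ℝ) ≤ q0 w := by exact_mod_cast q1_le_q0 hw
  rw [length_eq hw]
  apply inv_anti₀ (by positivity)
  nlinarith

lemma iter_mem_of_inv {A : Set ℝ} (hA : gauss ⁻¹' A = A) {x : ℝ} (n : ℕ) (h : gauss^[n] x ∈ A) :
    x ∈ A := by
  induction n with
  | zero => exact h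
  | succ n ih =>
    apply ih
    rw [← hA, mem_preimage, ← Function.iterate_succ_apply' gauss]
    exact h

lemma key_bound {A : Set ℝ} (hAm : MeasurableSet A) (hA : gauss ⁻¹' A = A) {w : List ℕ}
    (hw : Pos w) :
    volume (closedBall ((phi w 0 + phi w 1) / 2) (|phi w 0 - phi w 1| / 2)) *
      (ENNReal.ofReal (1 / 4) * volume (A ∩ Ioo 0 1)) ≤
      volume (A ∩ closedBall ((phi w 0 + phi w 1) / 2) (|phi w 0 - phi w 1| / 2)) := by
  have h1 : phi w '' (A ∩ Ioo 0 1) ⊆
      A ∩ closedBall ((phi w 0 + phi w 1) / 2) (|phi w 0 - phi w 1| / 2) := by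
    rintro x ⟨y, hy, rfl⟩
    refine ⟨?_, phi_mem_ball hw (Ioo_subset_Icc_self hy.2)⟩
    apply iter_mem_of_inv hA w.length
    rw [gauss_phi hw hy.2]
    exact hy.1
  refine le_trans ?_ (measure_mono h1)
  refine le_trans ?_ (volume_image_ge hw (hAm.inter measurableSet_Ioo) inter_subset_right)
  rw [Real.volume_closedBall, ← mul_assoc]
  gcongr
  rw [← ENNReal.ofReal_mul (by positivity)]
  apply ENNReal.ofReal_le_ofReal
  have := length_le hw
  rw [mul_inv]
  nlinarith

theorem erg_aux {A : Set ℝ} (hAm : MeasurableSet A) (hA : gauss ⁻¹' A = A)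
    (h0 : volume (A ∩ Ioo 0 1) ≠ 0) : volume (Aᶜ ∩ Ioo 0 1) = 0 := by
  set E : Set ℝ := Aᶜ ∩ Ioo 0 1 with hE
  have hEm : MeasurableSet E := hAm.compl.inter measurableSet_Ioo
  have hd := IsUnifLocDoublingMeasure.ae_tendsto_measure_inter_div (volume : Measure ℝ) E 1
  have hfalse : ∀ᵐ x ∂(volume.restrict E), False := by
    filter_upwards [hd, ae_restrict_mem hEm, ae_restrict_of_ae ae_irrational] with x h1 h2 h3
    set v : ℕ → List ℕ := fun N => pre (dig x) N with hv
    have hvp : ∀ N, Pos (v N) := fun N => (dig_spec h3 h2.2 N).1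
    set c : ℕ → ℝ := fun N => (phi (v N) 0 + phi (v N) 1) / 2 with hc
    set r : ℕ → ℝ := fun N => |phi (v N) 0 - phi (v N) 1| / 2 with hr
    have hr0 : ∀ N, 0 < r N := fun N => by
      have := length_pos' (hvp N)
      simp only [hr]
      positivity
    have hrt : Tendsto r atTop (𝓝[>] 0) := by
      rw [tendsto_nhdsWithin_iff]
      refine ⟨?_, Eventually.of_forall hr0⟩
      apply squeeze_zero (fun N => (hr0 N).le) (g := fun N => (1 / 2 : ℝ) ^ N)
      · intro N
        have h4 := phi_dist_le (hvp N) (x := 0) (y := 1) ⟨le_rfl, zero_le_one⟩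
          ⟨zero_le_one, le_rfl⟩
        simp only [hv, pre_length] at h4
        simp only [hr, hv]
        linarith
      · exact tendsto_pow_atTop_nhds_zero_of_lt_one (by norm_num) (by norm_num)
    have h5 := h1 c r hrt (Eventually.of_forall fun N => by
      rw [one_mul]
      have h6 := (dig_spec h3 h2.2 N).2
      have h7 := phi_mem_ball (hvp N) (Ioo_subset_Icc_self (iter_mem h3 h2.2 N))
      rw [← h6] at h7
      exact h7)
    set k : ℝ≥0∞ := ENNReal.ofReal (1 / 4) * volume (A ∩ Ioo 0 1) with hk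
    have hk0 : k ≠ 0 := by
      apply mul_ne_zero _ h0
      norm_num
    have h8 : ∀ N, volume (E ∩ closedBall (c N) (r N)) / volume (closedBall (c N) (r N)) + k ≤
        1 := by
      intro N
      have hb0 : volume (closedBall (c N) (r N)) ≠ 0 := by
        rw [Real.volume_closedBall]
        simp [hr0 N]
      have hbt : volume (closedBall (c N) (r N)) ≠ ⊤ := by
        rw [Real.volume_closedBall]
        exact ENNReal.ofReal_ne_top
      have h9 := key_bound hAm hA (hvp N)
      have h10 : k ≤ volume (A ∩ closedBall (c N) (r N)) / volume (closedBall (c N) (r N)) := by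
        rw [ENNReal.le_div_iff_mul_le (Or.inl hb0) (Or.inl hbt), mul_comm]
        exact h9
      refine (add_le_add_right h10 _).trans ?_
      rw [ENNReal.div_add_div_same]
      apply ENNReal.div_le_of_le_mul
      rw [one_mul, ← measure_union]
      · apply measure_mono
        exact union_subset inter_subset_right inter_subset_right
      · rw [Set.disjoint_left]
        rintro z ⟨hz, -⟩ ⟨hz', -⟩
        exact hz.1 hz'
      · exact hAm.inter measurableSet_closedBall
    have h11 : (1 : ℝ≥0∞) + k ≤ 1 := by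
      refine le_of_tendsto (h5.add_const k) (Eventually.of_forall h8)
    have h12 : k ≤ 0 := by
      have h13 : (1 : ℝ≥0∞) + k ≤ 1 + 0 := by rwa [add_zero]
      exact (ENNReal.add_le_add_iff_left ENNReal.one_ne_top).1 h13
    exact hk0 (nonpos_iff_eq_zero.1 h12)
  rw [ae_iff] at hfalse
  simpa using hfalse

theorem gm_ergodic : Ergodic gauss gm := by
  refine { gm_preserving with aeconst_set := ?_ }
  intro A hAm hA
  rw [eventuallyConst_set']
  have habs : ∀ s : Set ℝ, MeasurableSet s → volume (s ∩ Ioo 0 1) = 0 → gm s = 0 := by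
    intro s hs h
    rw [gm_apply hs]
    exact setLIntegral_measure_zero _ _ h
  by_cases h0 : volume (A ∩ Ioo 0 1) = 0
  · left
    rw [ae_eq_empty]
    exact habs A hAm h0
  · right
    rw [ae_eq_univ]
    exact habs _ hAm.compl (erg_aux hAm hA h0)

end Pool.Agent.Q208.CN
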