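import Pool.Agent.Q208.CN.Stage

set_option autoImplicit false

/-!
# The construction
-/

namespace Pool.Agent.Q208.CN

open Q261.CFD Set Filter Topology MeasureTheory Metric
open scoped ENNReal

/-- a sequence of positive digits is the sequence of digits of a number -/
theorem exists_num {a : ℕ → ℕ} (ha : ∀ n, 1 ≤ a n) : ∃ x : ℝ, x ∈ Ioo (0 : ℝ) 1 ∧ Irrational x ∧
    (∀ n, dig x n = a n) ∧ ∀ n, gauss^[n] x ∈ Ioo (0 : ℝ) 1 ∧ x = phi (pre a n) (gauss^[n] x) := by
  obtain ⟨π, -, h1, h2⟩ := exists_code (V := {n : ℕ // 1 ≤ n}) (fun v => [v.1])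
    (fun v b hb => by rw [List.mem_singleton.1 hb]; exact v.2) (fun v => by simp)
  set ω : ℕ → {n : ℕ // 1 ≤ n} := fun n => ⟨a n, ha n⟩ with hω
  set y : ℕ → ℝ := fun n => π fun i => ω (n + i) with hy
  have hy0 : ∀ n, y n ∈ Ioo (0 : ℝ) 1 := fun n => h1 _
  have hpos : ∀ n, Pos (pre a n) := by
    intro n b hb
    rw [pre, List.mem_map] at hb
    obtain ⟨i, -, rfl⟩ := hb
    exact ha i
  have hrec : ∀ n, y n = phi [a n] (y (n + 1)) := by
    intro n
    have := h2 fun i => ω (n + i)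
    simp only [hy]
    rw [this]
    simp only [add_zero, hω]
    congr 2
    funext i
    congr 2
    omega
  have hx : ∀ n, y 0 = phi (pre a n) (y n) := by
    intro n
    induction n with
    | zero => rfl
    | succ n ih => rw [ih, pre_succ, phi_append, ← hrec]
  have hg : ∀ n, gauss^[n] (y 0) = y n := by
    intro n
    have h3 := gauss_phi (hpos n) (hy0 n)
    rw [pre_length, ← hx n] at h3
    exact h3
  refine ⟨y 0, hy0 0, irrational_of_iter fun n => by rw [hg]; exact hy0 n, fun n => ?_,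
    fun n => ⟨by rw [hg]; exact hy0 n, by rw [hg]; exact hx n⟩⟩
  have h3 := (pre_eq_iff (pre a (n + 1)) (dig (y 0))).1 (by
    have := pre_dig_phi (hpos (n + 1)) (hy0 (n + 1))
    rwa [← hx] at this) n (by simp)
  rw [h3]
  simp [pre]

/-- one step of the construction -/
def Step (b : ℕ → ℕ) (W : ℕ → Finset (List ℕ)) (n : ℕ → ℕ) (j : ℕ) (u u' : List ℕ) : Prop :=
  ∃ (v : List ℕ) (A m : ℕ), u' = u ++ v ++ [A] ∧ Pos v ∧ 1 ≤ A ∧ j ≤ m ∧ q0 (u ++ v) ∣ b m ∧
    100 * b (2 * m) ≤ A ∧ (j + 1) * (u.length + n j + n (j + 1) + j + 1) ≤ v.length ∧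
    ∀ v' v'', v = v' ++ v'' → ∀ w ∈ W j, disc w v' ≤ 1 / ((j : ℝ) + 1) * v'.length + n j

/-- the initial words of a word extended by one step -/
lemma Step.initial {b : ℕ → ℕ} {W : ℕ → Finset (List ℕ)} {n : ℕ → ℕ} {j : ℕ} {u u' : List ℕ}
    (h : Step b W n j u u') {x y : List ℕ} (hx : u' = x ++ y) (hl : u.length ≤ x.length)
    {w : List ℕ} (hw : w ∈ W j) :
    disc w x ≤ disc w u + 1 / ((j : ℝ) + 1) * x.length + n j + 2 * w.length + 1 := by
  obtain ⟨v, A, m, h1, -, -, -, -, -, -, h8⟩ := h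
  have hl0 : (0 : ℝ) ≤ w.length := Nat.cast_nonneg _
  have hj : (0 : ℝ) < 1 / ((j : ℝ) + 1) := by positivity
  have key : ∀ v' v'', v = v' ++ v'' → x = u ++ v' →
      disc w x ≤ disc w u + 1 / ((j : ℝ) + 1) * x.length + n j + w.length := by
    intro v' v'' hv hxu
    have e1 := disc_append_le w u v'
    have e2 := h8 v' v'' hv w hw
    rw [hxu, List.length_append]
    push_cast
    have e3 : (0 : ℝ) ≤ 1 / ((j : ℝ) + 1) * u.length := by positivity
    linarith
  rw [h1, List.append_assoc, List.append_eq_append_iff] at hx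
  rcases hx with ⟨as, e1, e2⟩ | ⟨bs, e1, e2⟩
  · rcases List.append_eq_append_iff.1 e2 with ⟨cs, e3, e4⟩ | ⟨cs, e3, e4⟩
    · cases cs with
      | nil =>
        rw [List.append_nil] at e3
        rw [e3] at e1
        have := key v [] (by simp) e1
        linarith
      | cons c cs =>
        rw [List.cons_append, List.cons.injEq] at e4
        obtain ⟨rfl, e5⟩ := e4
        have e6 : cs = [] := (List.append_eq_nil_iff.1 e5.symm).1
        subst e6
        have e7 : x = (u ++ v) ++ [A] := by rw [e1, e3, List.append_assoc]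
        have e8 := disc_append_le w (u ++ v) [A]
        have e9 := disc_single w A
        have e10 := disc_append_le w u v
        have e11 := h8 v [] (by simp) w hw
        rw [← e7] at e8
        have e12 : (x.length : ℝ) = u.length + v.length + 1 := by
          rw [e7]; simp; ring
        rw [e12]
        have e3 : (0 : ℝ) ≤ 1 / ((j : ℝ) + 1) * u.length := by positivity
        linarith
    · have := key as cs e3 e1
      linarith
  · have e3 : bs = [] := by
      have : u.length = x.length + bs.length := by rw [e1, List.length_append]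
      apply List.length_eq_zero_iff.1
      omega
    subst e3
    rw [List.append_nil] at e1
    have := key [] v rfl (by rw [List.append_nil]; exact e1.symm)
    linarith

theorem exists_chain {q : ℕ → ℕ} (hq : ∀ n, 2 ≤ q n) :
    ∃ (e : ℕ → {w : List ℕ // w ≠ [] ∧ Pos w}) (n : ℕ → ℕ) (U : ℕ → List ℕ),
      Function.Surjective e ∧ U 0 = [] ∧ (∀ j, Pos (U j)) ∧
      ∀ j, Step (fun m => ∏ i ∈ Finset.range m, q i)
        (fun j => (Finset.range (j + 1)).image fun i => (e i).1) n j (U j) (U (j + 1)) := by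
  classical
  haveI : Nonempty {w : List ℕ // w ≠ [] ∧ Pos w} := ⟨⟨[1], by simp, pos_single le_rfl⟩⟩
  obtain ⟨e, he⟩ := exists_surjective_nat {w : List ℕ // w ≠ [] ∧ Pos w}
  set W : ℕ → Finset (List ℕ) := fun j => (Finset.range (j + 1)).image fun i => (e i).1 with hW
  obtain ⟨κ, hκ, hG⟩ := growth
  have hst : ∀ j : ℕ, ∃ n : ℕ, ∀ u : List ℕ, Pos u → ∀ Z : ℕ, ∃ D₀ : ℕ, ∀ p k : ℕ, p.Prime →
      D₀ ≤ p ^ k → ∃ v : List ℕ, Pos v ∧ q0 (u ++ v) = p ^ k ∧ Z ≤ v.length ∧
        ∀ v' v'', v = v' ++ v'' → ∀ w ∈ W j, disc w v' ≤ 1 / ((j : ℝ) + 1) * v'.length + n := by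
    intro j
    apply stage hκ (Gr_ae hG) _ _ (by positivity)
    · intro w hw
      obtain ⟨i, -, rfl⟩ := Finset.mem_image.1 hw
      exact (e i).2.1
    · intro w hw
      obtain ⟨i, -, rfl⟩ := Finset.mem_image.1 hw
      exact (e i).2.2
  choose n hn using hst
  have hstep : ∀ (j : ℕ) (u : {u : List ℕ // Pos u}), ∃ u' : {u : List ℕ // Pos u},
      Step (fun m => ∏ i ∈ Finset.range m, q i) W n j u.1 u'.1 := by
    rintro j ⟨u, hu⟩
    obtain ⟨D₀, hD⟩ := hn j u hu ((j + 1) * (u.length + n j + n (j + 1) + j + 1))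
    obtain ⟨m, p, k, h1, h2, h3, h4⟩ := exists_primePow hq D₀ j
    obtain ⟨v, h5, h6, h7, h8⟩ := hD p k h2 h3
    have hA : 1 ≤ 100 * ∏ i ∈ Finset.range (2 * m), q i := by
      have : 0 < ∏ i ∈ Finset.range (2 * m), q i :=
        Finset.prod_pos fun i _ => by have := hq i; omega
      omega
    refine ⟨⟨u ++ v ++ [100 * ∏ i ∈ Finset.range (2 * m), q i], ?_⟩, v,
      100 * ∏ i ∈ Finset.range (2 * m), q i, m, rfl, h5, hA, h1, ?_, le_rfl, h7, h8⟩
    · exact (hu.append h5).append (pos_single hA)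
    · rw [h6]
      exact h4
  choose f hf using hstep
  set U : ℕ → {u : List ℕ // Pos u} := fun j =>
    Nat.rec ⟨[], fun a ha => by simp at ha⟩ (fun j u => f j u) j with hU
  exact ⟨e, n, fun j => (U j).1, he, rfl, fun j => (U j).2, fun j => hf j (U j)⟩

end Pool.Agent.Q208.CN
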