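import Pool.Agent.Q208.CN.Fin

set_option autoImplicit false

/-!
# Frequencies and orbit of the constructed number
-/

namespace Pool.Agent.Q208.CN

open Q261.CFD Set Filter Topology MeasureTheory Metric
open scoped ENNReal

section chain

variable {b : ℕ → ℕ} {e : ℕ → {w : List ℕ // w ≠ [] ∧ Pos w}} {n : ℕ → ℕ} {U : ℕ → List ℕ}

/-- the patterns of the stage `j` -/
def Wj (e : ℕ → {w : List ℕ // w ≠ [] ∧ Pos w}) (j : ℕ) : Finset (List ℕ) :=
  (Finset.range (j + 1)).image fun i => (e i).1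

lemma Step.pfx {W : ℕ → Finset (List ℕ)} {j : ℕ} {u u' : List ℕ} (h : Step b W n j u u') :
    u <+: u' := by
  obtain ⟨v, A, m, h1, -⟩ := h
  rw [h1, List.append_assoc]
  exact List.prefix_append _ _

lemma Step.len {W : ℕ → Finset (List ℕ)} {j : ℕ} {u u' : List ℕ} (h : Step b W n j u u') :
    (j + 1) * (u.length + n j + n (j + 1) + j + 1) < u'.length := by
  obtain ⟨v, A, m, h1, -, -, -, -, -, h7, -⟩ := h
  rw [h1, List.length_append, List.length_append, List.length_singleton]
  omega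

lemma chain_pfx {W : ℕ → Finset (List ℕ)} (hS : ∀ j, Step b W n j (U j) (U (j + 1))) {i j : ℕ}
    (hij : i ≤ j) : U i <+: U j := by
  induction j, hij using Nat.le_induction with
  | base => exact List.prefix_rfl
  | succ j _ ih => exact ih.trans (hS j).pfx

lemma chain_len {W : ℕ → Finset (List ℕ)} (hS : ∀ j, Step b W n j (U j) (U (j + 1))) (j : ℕ) :
    j ≤ (U j).length := by
  cases j with
  | zero => exact Nat.zero_le _
  | succ j =>
    have h := (hS j).len
    have h1 : 1 * (j + 1) ≤ (j + 1) * ((U j).length + n j + n (j + 1) + j + 1) :=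
      (Nat.mul_comm 1 (j + 1)).le.trans (Nat.mul_le_mul_left _ (by omega))
    omega

/-- the infinite word -/
def aa (U : ℕ → List ℕ) (i : ℕ) : ℕ := (U (i + 1)).getD i 0

lemma aa_eq {W : ℕ → Finset (List ℕ)} (hS : ∀ j, Step b W n j (U j) (U (j + 1))) {i j : ℕ}
    (hi : i < (U j).length) : aa U i = (U j)[i] := by
  have h1 : i < (U (i + 1)).length := lt_of_lt_of_le (Nat.lt_succ_self i) (chain_len hS (i + 1))
  unfold aa
  rw [List.getD_eq_getElem _ _ h1]
  rcases le_total (i + 1) j with h | h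
  · exact (chain_pfx hS h).getElem h1
  · exact ((chain_pfx hS h).getElem hi).symm

lemma pre_aa {W : ℕ → Finset (List ℕ)} (hS : ∀ j, Step b W n j (U j) (U (j + 1))) (j : ℕ) :
    pre (aa U) (U j).length = U j := by
  rw [pre_eq_iff]
  intro i hi
  exact aa_eq hS hi

lemma pre_aa_split {W : ℕ → Finset (List ℕ)} (hS : ∀ j, Step b W n j (U j) (U (j + 1))) {j N : ℕ}
    (hN : N ≤ (U j).length) : ∃ y, U j = pre (aa U) N ++ y := by
  refine ⟨pre (fun i => aa U (N + i)) ((U j).length - N), ?_⟩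
  rw [← pre_add, Nat.add_sub_cancel' hN, pre_aa hS]

lemma aa_pos {W : ℕ → Finset (List ℕ)} (hS : ∀ j, Step b W n j (U j) (U (j + 1)))
    (hU : ∀ j, Pos (U j)) (i : ℕ) : 1 ≤ aa U i := by
  have h1 : i < (U (i + 1)).length := lt_of_lt_of_le (Nat.lt_succ_self i) (chain_len hS (i + 1))
  rw [aa_eq hS h1]
  exact hU _ _ (List.getElem_mem _)

/-- the discrepancies of the long initial words are small -/
theorem chain_disc (hS : ∀ j, Step b (Wj e) n j (U j) (U (j + 1))) (i : ℕ) {j : ℕ}
    (hj : i ≤ j) (hj' : 2 * (e i).1.length + 1 ≤ j) :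
    disc (e i).1 (U (j + 1)) ≤ 2 * (1 / ((j : ℝ) + 1) * (U (j + 1)).length) := by
  have hw : (e i).1 ∈ Wj e j := Finset.mem_image_of_mem _ (Finset.mem_range.2 (by omega))
  have h1 := (hS j).initial (x := U (j + 1)) (y := []) (by rw [List.append_nil])
    (chain_pfx hS (Nat.le_succ j)).length_le hw
  have h2 := disc_le_length (e i).1 (U j)
  have h3 : ((U j).length : ℝ) + n j + 2 * (e i).1.length + 1 ≤
      1 / ((j : ℝ) + 1) * (U (j + 1)).length := by
    have h4 := (hS j).len
    have h5 : (j + 1) * ((U j).length + n j + 2 * (e i).1.length + 1) ≤ (U (j + 1)).length := by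
      refine le_trans (Nat.mul_le_mul_left _ ?_) h4.le
      omega
    have h6 : ((j : ℝ) + 1) * ((U j).length + n j + 2 * (e i).1.length + 1) ≤
        (U (j + 1)).length := by exact_mod_cast h5
    rw [one_div, le_inv_mul_iff₀ (by positivity)]
    exact h6
  linarith

theorem chain_disc' (hS : ∀ j, Step b (Wj e) n j (U j) (U (j + 1))) (i : ℕ) {j : ℕ}
    (hj : i ≤ j) (hj' : 2 * (e i).1.length + 1 ≤ j) {N : ℕ} (h1 : (U (j + 1)).length ≤ N)
    (h2 : N ≤ (U (j + 2)).length) :
    disc (e i).1 (pre (aa U) N) ≤ 4 * (1 / ((j : ℝ) + 1) * N) := by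
  have hw : (e i).1 ∈ Wj e (j + 1) := Finset.mem_image_of_mem _ (Finset.mem_range.2 (by omega))
  obtain ⟨y, hy⟩ := pre_aa_split hS h2
  have h3 := (hS (j + 1)).initial (x := pre (aa U) N) hy (by rw [pre_length]; exact h1) hw
  rw [pre_length] at h3
  have h4 := chain_disc hS i hj hj'
  have h5 : (n (j + 1) : ℝ) + 2 * (e i).1.length + 1 ≤ 1 / ((j : ℝ) + 1) * (U (j + 1)).length := by
    have h4 := (hS j).len
    have h5 : (j + 1) * (n (j + 1) + 2 * (e i).1.length + 1) ≤ (U (j + 1)).length := by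
      refine le_trans (Nat.mul_le_mul_left _ ?_) h4.le
      omega
    have h6 : ((j : ℝ) + 1) * (n (j + 1) + 2 * (e i).1.length + 1) ≤
        (U (j + 1)).length := by exact_mod_cast h5
    rw [one_div, le_inv_mul_iff₀ (by positivity)]
    exact h6
  have h6 : ((U (j + 1)).length : ℝ) ≤ N := by exact_mod_cast h1
  have h7 : 1 / ((j : ℝ) + 1) * (U (j + 1)).length ≤ 1 / ((j : ℝ) + 1) * N :=
    mul_le_mul_of_nonneg_left h6 (by positivity)
  have h8 : 1 / (((j + 1 : ℕ) : ℝ) + 1) * N ≤ 1 / ((j : ℝ) + 1) * N := by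
    apply mul_le_mul_of_nonneg_right _ (Nat.cast_nonneg _)
    apply one_div_le_one_div_of_le (by positivity)
    push_cast
    linarith
  linarith

/-- the frequencies of the patterns in the infinite word -/
theorem chain_freq (hS : ∀ j, Step b (Wj e) n j (U j) (U (j + 1))) (i : ℕ) :
    Tendsto (fun N : ℕ => (cnt (e i).1 (aa U) N : ℝ) / N) atTop (𝓝 (mu (e i).1)) := by
  set w := (e i).1 with hw
  have hw0 : w ≠ [] := (e i).2.1
  rw [Metric.tendsto_atTop]
  intro δ hδ
  obtain ⟨J, hJ⟩ := exists_nat_gt (8 / δ)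
  set j₀ : ℕ := max J (max i (2 * w.length + 1)) with hj₀
  obtain ⟨N₁, hN₁⟩ := exists_nat_gt (4 * (w.length : ℝ) / δ)
  refine ⟨max ((U (j₀ + 1)).length) (N₁ + 1), fun N hN => ?_⟩
  have hNa : (U (j₀ + 1)).length ≤ N := (le_max_left _ _).trans hN
  have hNb : N₁ + 1 ≤ N := (le_max_right _ _).trans hN
  -- the stage of `N`
  have hex : ∃ j, j₀ ≤ j ∧ (U (j + 1)).length ≤ N ∧ N ≤ (U (j + 2)).length := by
    have h1 : ∃ j, N < (U (j + 2)).length := ⟨N, lt_of_lt_of_le (by omega) (chain_len hS (N + 2))⟩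
    classical
    set j := Nat.find h1 with hjd
    have h2 := Nat.find_spec h1
    rcases lt_or_ge j j₀ with h3 | h3
    · exfalso
      have h4 : (U (j + 2)).length ≤ (U (j₀ + 1)).length :=
        (chain_pfx hS (by omega)).length_le
      rw [← hjd] at h2
      omega
    · refine ⟨j, h3, ?_, h2.le⟩
      rcases Nat.eq_zero_or_pos j with h4 | h4
      · rw [h4]
        have : j₀ = 0 := by omega
        rw [this] at hNa
        exact hNa
      · have h5 := Nat.find_min h1 (m := j - 1) (by omega)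
        have h6 : j - 1 + 2 = j + 1 := by omega
        rw [h6] at h5
        omega
  obtain ⟨j, h1, h2, h3⟩ := hex
  have h4 := chain_disc' hS i (j := j) (by
    have := (le_max_left i (2 * w.length + 1)).trans (le_max_right J _); omega) (by
    have h9 := (le_max_right i (2 * w.length + 1)).trans (le_max_right J _)
    exact (h9.trans h1)) h2 h3
  rw [← hw] at h4
  have hN0 : (0 : ℝ) < N := by
    have : 0 < N := by omega
    exact_mod_cast this
  have h5 : 4 * (1 / ((j : ℝ) + 1) * N) < δ / 2 * N := by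
    have h6 : (J : ℝ) ≤ j := by exact_mod_cast (le_max_left _ _).trans h1
    have h7 : 8 / δ < (j : ℝ) + 1 := by linarith
    have h8 : 1 / ((j : ℝ) + 1) < δ / 8 := by
      rw [div_lt_iff₀ hδ] at h7
      rw [div_lt_iff₀ (by positivity)]
      nlinarith
    nlinarith
  have h6 : 2 * (w.length : ℝ) < δ / 2 * N := by
    have h7 : (N₁ : ℝ) ≤ N := by exact_mod_cast (Nat.le_succ _).trans hNb
    rw [div_lt_iff₀ hδ] at hN₁
    nlinarith
  have h7 := cnt_ge hw0 (aa U) N
  have h8 := cnt_le hw0 (aa U) N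
  have h7' : (occ w (pre (aa U) N) : ℝ) ≤ cnt w (aa U) N := by exact_mod_cast h7
  have h8' : (cnt w (aa U) N : ℝ) ≤ occ w (pre (aa U) N) + 2 * w.length := by exact_mod_cast h8
  unfold disc at h4
  rw [pre_length] at h4
  rw [Real.dist_eq]
  have h9 : (cnt w (aa U) N : ℝ) / N - mu w = ((cnt w (aa U) N : ℝ) - N * mu w) / N := by
    field_simp
  rw [h9, abs_div, abs_of_pos hN0, div_lt_iff₀ hN0]
  have h10 := abs_le.1 (le_refl |(occ w (pre (aa U) N) : ℝ) - N * mu w|)
  rw [abs_lt]
  constructor <;> linarith [h10.1, h10.2, abs_nonneg ((occ w (pre (aa U) N) : ℝ) - N * mu w)]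

end chain

end Pool.Agent.Q208.CN
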