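import Pool.Agent.Q208.CN.Meas

set_option autoImplicit false

/-!
# The Gauss measure is invariant
-/

namespace Pool.Agent.Q208.CN

open Q261.CFD Set Filter Topology MeasureTheory
open scoped ENNReal

lemma gm_univ : gm univ = 1 := by
  rw [gm_apply MeasurableSet.univ, univ_inter, lintegral_rho le_rfl zero_le_one]
  have hl : 0 < Real.log 2 := Real.log_pos (by norm_num)
  norm_num

instance : IsProbabilityMeasure gm := ⟨gm_univ⟩

lemma ae_irrational : ∀ᵐ x : ℝ, Irrational x :=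
  (Set.countable_range ((↑) : ℚ → ℝ)).ae_notMem volume

lemma measurable_gauss : Measurable gauss := measurable_fract.comp measurable_inv

lemma hasSum_branch {y : ℝ} (hy : 0 ≤ y) :
    HasSum (fun a : ℕ => (Real.log 2)⁻¹ * (((a : ℝ) + 1 + y)⁻¹ - ((a : ℝ) + 1 + 1 + y)⁻¹))
      ((Real.log 2)⁻¹ * (1 + y)⁻¹) := by
  apply HasSum.mul_left
  have hnn : ∀ a : ℕ, 0 ≤ ((a : ℝ) + 1 + y)⁻¹ - ((a : ℝ) + 1 + 1 + y)⁻¹ := by
    intro a
    rw [sub_nonneg]
    apply inv_anti₀ (by positivity)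
    linarith
  rw [hasSum_iff_tendsto_nat_of_nonneg hnn]
  have h1 : ∀ n : ℕ, ∑ i ∈ Finset.range n, (((i : ℝ) + 1 + y)⁻¹ - ((i : ℝ) + 1 + 1 + y)⁻¹) =
      (1 + y)⁻¹ - ((n : ℝ) + 1 + y)⁻¹ := by
    intro n
    have := Finset.sum_range_sub' (fun i : ℕ => ((i : ℝ) + 1 + y)⁻¹) n
    simp only [Nat.cast_add, Nat.cast_one, Nat.cast_zero, zero_add] at this
    exact this
  simp only [h1]
  have h2 : Tendsto (fun n : ℕ => ((n : ℝ) + 1 + y)⁻¹) atTop (𝓝 0) := by
    apply Tendsto.inv_tendsto_atTop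
    apply tendsto_atTop_add_const_right
    apply tendsto_atTop_add_const_right
    exact tendsto_natCast_atTop_atTop
  simpa using tendsto_const_nhds.sub h2

lemma tsum_branch {y : ℝ} (hy : 0 ≤ y) :
    ∑' a : ℕ, ENNReal.ofReal (D [a + 1] y ^ 2) * rho (phi [a + 1] y) = rho y := by
  have hl : 0 < Real.log 2 := Real.log_pos (by norm_num)
  have h1 : ∀ a : ℕ, ENNReal.ofReal (D [a + 1] y ^ 2) * rho (phi [a + 1] y) = ENNReal.ofReal
      ((Real.log 2)⁻¹ * (((a : ℝ) + 1 + y)⁻¹ - ((a : ℝ) + 1 + 1 + y)⁻¹)) := by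
    intro a
    unfold rho
    rw [← ENNReal.ofReal_mul (by positivity)]
    congr 1
    rw [D_cons, D_nil, phi_cons, phi_nil]
    push_cast
    field_simp
    ring
  have hnn : ∀ a : ℕ, 0 ≤ (Real.log 2)⁻¹ * (((a : ℝ) + 1 + y)⁻¹ - ((a : ℝ) + 1 + 1 + y)⁻¹) := by
    intro a
    apply mul_nonneg (by positivity)
    rw [sub_nonneg]
    apply inv_anti₀ (by positivity)
    linarith
  simp only [h1]
  rw [← ENNReal.ofReal_tsum_of_nonneg hnn (hasSum_branch hy).summable, (hasSum_branch hy).tsum_eq]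
  rfl

lemma pos_succ (a : ℕ) : Pos [a + 1] := fun b hb => by
  rw [List.mem_singleton.1 hb]; omega

lemma preimage_ae (s : Set ℝ) : (gauss ⁻¹' s ∩ Ioo 0 1 : Set ℝ) =ᵐ[volume]
    (⋃ a : ℕ, phi [a + 1] '' (s ∩ Ioo 0 1) : Set ℝ) := by
  rw [← setOf_mem_eq (s := (gauss ⁻¹' s ∩ Ioo 0 1 : Set ℝ)),
    ← setOf_mem_eq (s := (⋃ a : ℕ, phi [a + 1] '' (s ∩ Ioo 0 1) : Set ℝ))]
  apply eventuallyEq_set.2
  filter_upwards [ae_irrational] with x hx
  simp only [mem_inter_iff, mem_preimage, mem_iUnion, mem_image, mem_setOf_eq]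
  constructor
  · rintro ⟨h1, h2⟩
    obtain ⟨a, ha, -, h3⟩ := eq_branch h2
    refine ⟨a - 1, gauss x, ⟨h1, gauss_mem hx⟩, ?_⟩
    rw [Nat.sub_add_cancel ha, phi_cons, phi_nil]
    exact h3.symm
  · rintro ⟨a, y, ⟨h1, h2⟩, rfl⟩
    have h3 := (gauss_branch (a := a + 1) h2).1
    refine ⟨?_, phi_mem_Ioo (pos_succ a) h2⟩
    rw [phi_cons, phi_nil, h3]
    exact h1

theorem gm_preimage {s : Set ℝ} (hs : MeasurableSet s) : gm (gauss ⁻¹' s) = gm s := by
  have hS : MeasurableSet (s ∩ Ioo (0 : ℝ) 1) := hs.inter measurableSet_Ioo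
  rw [gm_apply (measurable_gauss hs), gm_apply hs, setLIntegral_congr (preimage_ae s),
    lintegral_iUnion (fun a => measurable_image (pos_succ a) hS inter_subset_right)]
  · have h1 : ∀ a : ℕ, ∫⁻ x in phi [a + 1] '' (s ∩ Ioo 0 1), rho x =
        ∫⁻ y in s ∩ Ioo 0 1, ENNReal.ofReal (D [a + 1] y ^ 2) * rho (phi [a + 1] y) := fun a =>
      lintegral_image (pos_succ a) hS inter_subset_right _
    simp only [h1]
    rw [← lintegral_tsum]
    · apply setLIntegral_congr_fun hS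
      intro y hy
      exact tsum_branch hy.2.1.le
    · intro a
      apply Measurable.aemeasurable
      refine Measurable.mul (f := fun y => ENNReal.ofReal (D [a + 1] y ^ 2))
        (g := fun y => rho (phi [a + 1] y)) ?_ ?_
      · apply Measurable.ennreal_ofReal
        apply Measurable.pow_const
        have : D [a + 1] = fun y => (((a + 1 : ℕ) : ℝ) + y)⁻¹ := by
          funext y
          rw [D_cons, D_nil, phi_nil, mul_one]
        rw [this]
        fun_prop
      · exact measurable_rho.comp (measurable_phi _)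
  · intro a b hab
    rw [Function.onFun, Set.disjoint_left]
    rintro x ⟨y, hy, rfl⟩ ⟨z, hz, h⟩
    apply hab
    have h1 := (gauss_branch (a := a + 1) hy.2).2
    have h2 := (gauss_branch (a := b + 1) hz.2).2
    rw [phi_cons, phi_nil, phi_cons, phi_nil] at h
    rw [h, h1] at h2
    have : a + 1 = b + 1 := by exact_mod_cast h2
    omega

theorem gm_preserving : MeasurePreserving gauss gm gm :=
  ⟨measurable_gauss, by
    ext s hs
    rw [Measure.map_apply measurable_gauss hs, gm_preimage hs]⟩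

end Pool.Agent.Q208.CN
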