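import Pool.Agent.Q261.CFD.Part
import Pool.Agent.Q261.CFD.Lower

set_option autoImplicit false

/-!
# Continuants of words of digits, reversal, expansions of rational numbers
-/

namespace Pool.Agent.Q208.CN

open Q261.CFD Set Matrix

/-- the matrix of a word of digits -/
def mat (w : List ℕ) : Matrix (Fin 2) (Fin 2) ℕ := (w.map fun a => !![a, 1; 1, 0]).prod

/-- the continuant: the denominator of `phi w 0` -/
def q0 (w : List ℕ) : ℕ := mat w 0 0
/-- the continuant of the word without its last digit -/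
def q1 (w : List ℕ) : ℕ := mat w 0 1
/-- the continuant of the word without its first digit: the numerator of `phi w 0` -/
def p0 (w : List ℕ) : ℕ := mat w 1 0
/-- the continuant of the word without its first and last digits -/
def p1 (w : List ℕ) : ℕ := mat w 1 1

lemma mat_nil : mat [] = 1 := by simp [mat]

lemma mat_append (u w : List ℕ) : mat (u ++ w) = mat u * mat w := by
  simp [mat]

lemma mat_reverse (w : List ℕ) : mat w.reverse = (mat w)ᵀ := by
  unfold mat
  rw [Matrix.transpose_list_prod, List.map_reverse, List.map_map]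
  congr 2
  apply List.map_congr_left
  intro a _
  ext i j
  fin_cases i <;> fin_cases j <;> rfl

@[simp] lemma q0_nil : q0 [] = 1 := by simp [q0, mat_nil]
@[simp] lemma q1_nil : q1 [] = 0 := by simp [q1, mat_nil]
@[simp] lemma p0_nil : p0 [] = 0 := by simp [p0, mat_nil]
@[simp] lemma p1_nil : p1 [] = 1 := by simp [p1, mat_nil]

lemma q0_reverse (w : List ℕ) : q0 w.reverse = q0 w := by simp [q0, mat_reverse]
lemma q1_reverse (w : List ℕ) : q1 w.reverse = p0 w := by simp [q1, p0, mat_reverse]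
lemma p0_reverse (w : List ℕ) : p0 w.reverse = q1 w := by simp [q1, p0, mat_reverse]
lemma p1_reverse (w : List ℕ) : p1 w.reverse = p1 w := by simp [p1, mat_reverse]

lemma mat_cons (a : ℕ) (w : List ℕ) : mat (a :: w) = !![a, 1; 1, 0] * mat w := by simp [mat]

lemma q0_cons (a : ℕ) (w : List ℕ) : q0 (a :: w) = a * q0 w + p0 w := by
  simp [q0, p0, mat_cons, Matrix.mul_apply, Fin.sum_univ_two]
lemma q1_cons (a : ℕ) (w : List ℕ) : q1 (a :: w) = a * q1 w + p1 w := by
  simp [q1, p1, mat_cons, Matrix.mul_apply, Fin.sum_univ_two]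
lemma p0_cons (a : ℕ) (w : List ℕ) : p0 (a :: w) = q0 w := by
  simp [q0, p0, mat_cons, Matrix.mul_apply, Fin.sum_univ_two]
lemma p1_cons (a : ℕ) (w : List ℕ) : p1 (a :: w) = q1 w := by
  simp [q1, p1, mat_cons, Matrix.mul_apply, Fin.sum_univ_two]

lemma q0_append (u w : List ℕ) : q0 (u ++ w) = q0 u * q0 w + q1 u * p0 w := by
  simp [q0, q1, p0, mat_append, Matrix.mul_apply, Fin.sum_univ_two]
lemma q1_append (u w : List ℕ) : q1 (u ++ w) = q0 u * q1 w + q1 u * p1 w := by
  simp [q0, q1, p1, mat_append, Matrix.mul_apply, Fin.sum_univ_two]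
lemma p0_append (u w : List ℕ) : p0 (u ++ w) = p0 u * q0 w + p1 u * p0 w := by
  simp [q0, p1, p0, mat_append, Matrix.mul_apply, Fin.sum_univ_two]

lemma q0_concat (w : List ℕ) (a : ℕ) : q0 (w ++ [a]) = a * q0 w + q1 w := by
  rw [q0_append, q0_cons, p0_cons]
  simp
  ring

lemma q1_concat (w : List ℕ) (a : ℕ) : q1 (w ++ [a]) = q0 w := by
  rw [q1_append, q1_cons, p1_cons]
  simp

lemma q0_pos {w : List ℕ} (hw : Pos w) : 1 ≤ q0 w := by
  induction w with
  | nil => simp
  | cons a w ih =>
    rw [q0_cons]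
    have := ih hw.tail
    have := hw.head
    nlinarith

lemma p0_le_q0 {w : List ℕ} (hw : Pos w) : p0 w ≤ q0 w := by
  cases w with
  | nil => simp
  | cons a w =>
    rw [q0_cons, p0_cons]
    have := hw.head
    nlinarith [Nat.zero_le (p0 w), Nat.zero_le (q0 w)]

lemma Pos.reverse {w : List ℕ} (hw : Pos w) : Pos w.reverse := fun a ha => hw a (by simpa using ha)

lemma q1_le_q0 {w : List ℕ} (hw : Pos w) : q1 w ≤ q0 w := by
  have := p0_le_q0 (Pos.reverse hw)
  rwa [p0_reverse, q0_reverse] at this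

lemma p1_le_p0 {w : List ℕ} (hw : Pos w) (h : w ≠ []) : p1 w ≤ p0 w := by
  cases w with
  | nil => exact absurd rfl h
  | cons a w =>
    rw [p1_cons, p0_cons]
    exact q1_le_q0 hw.tail

lemma det_mat (w : List ℕ) : (q0 w : ℤ) * p1 w - q1 w * p0 w = (-1) ^ w.length := by
  induction w with
  | nil => simp
  | cons a w ih =>
    rw [q0_cons, q1_cons, p0_cons, p1_cons, List.length_cons, pow_succ, ← ih]
    push_cast
    ring

lemma phi_D_eq {w : List ℕ} (hw : Pos w) {x : ℝ} (hx : 0 ≤ x) :
    phi w x = (p0 w + p1 w * x) / (q0 w + q1 w * x) ∧ D w x = (q0 w + q1 w * x)⁻¹ := by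
  induction w with
  | nil => simp
  | cons a w ih =>
    obtain ⟨e1, e2⟩ := ih hw.tail
    have h1 : (1 : ℝ) ≤ q0 w := by exact_mod_cast q0_pos hw.tail
    have h8 : 0 < (q0 w : ℝ) + q1 w * x := by positivity
    have ha : (1 : ℝ) ≤ a := by exact_mod_cast hw.head
    rw [phi_cons, D_cons, e1, e2, q0_cons, q1_cons, p0_cons, p1_cons]
    push_cast
    have h9 : (a : ℝ) + (p0 w + p1 w * x) / (q0 w + q1 w * x) =
        (a * q0 w + p0 w + (a * q1 w + p1 w) * x) / (q0 w + q1 w * x) := by
      field_simp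
      ring
    have h10 : 0 < (a : ℝ) * q0 w + p0 w + (a * q1 w + p1 w) * x := by positivity
    rw [h9]
    constructor
    · rw [inv_div]
    · rw [inv_div]
      field_simp

lemma phi_eq {w : List ℕ} (hw : Pos w) {x : ℝ} (hx : 0 ≤ x) :
    phi w x = (p0 w + p1 w * x) / (q0 w + q1 w * x) := (phi_D_eq hw hx).1

lemma D_eq {w : List ℕ} (hw : Pos w) {x : ℝ} (hx : 0 ≤ x) :
    D w x = (q0 w + q1 w * x)⁻¹ := (phi_D_eq hw hx).2

lemma phi_zero {w : List ℕ} (hw : Pos w) : phi w 0 = (p0 w : ℝ) / q0 w := by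
  rw [phi_eq hw le_rfl]; simp

lemma D_zero {w : List ℕ} (hw : Pos w) : D w 0 = (q0 w : ℝ)⁻¹ := by
  rw [D_eq hw le_rfl]; simp

lemma coprime_pq (w : List ℕ) : Nat.Coprime (p0 w) (q0 w) := by
  rw [← Nat.isCoprime_iff_coprime]
  have h := det_mat w
  rcases neg_one_pow_eq_or ℤ w.length with h1 | h1
  · rw [h1] at h
    exact ⟨-(q1 w : ℤ), p1 w, by linarith⟩
  · rw [h1] at h
    exact ⟨(q1 w : ℤ), -p1 w, by linarith⟩

lemma q0_mul_le (u w : List ℕ) : q0 u * q0 w ≤ q0 (u ++ w) := by
  rw [q0_append]; exact Nat.le_add_right _ _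

lemma q0_le_append_left {w : List ℕ} (u : List ℕ) (hw : Pos w) : q0 u ≤ q0 (u ++ w) :=
  le_trans (Nat.le_mul_of_pos_right _ (q0_pos hw)) (q0_mul_le u w)

/-- the continuant grows at least like `√2 ^ n` -/
lemma two_pow_le_q0 {w : List ℕ} (hw : Pos w) : 2 ^ (w.length / 2) ≤ q0 w := by
  have h := D_le_half hw le_rfl
  rw [D_zero hw] at h
  have h1 : (0 : ℝ) < q0 w := by exact_mod_cast q0_pos hw
  have h2 : (2 : ℝ) ^ (w.length / 2) ≤ q0 w := by
    rw [one_div, inv_pow] at h
    rwa [inv_le_inv₀ h1 (by positivity)] at h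
  exact_mod_cast h2

/-- the distance between two images -/
lemma phi_dist_eq {w : List ℕ} (hw : Pos w) {x y : ℝ} (hx : 0 ≤ x) (hy : 0 ≤ y) :
    |phi w x - phi w y| = |x - y| / ((q0 w + q1 w * x) * (q0 w + q1 w * y)) := by
  rw [phi_sub hw hx hy, D_eq hw hx, D_eq hw hy, ← mul_inv, div_eq_mul_inv]

/-- every fraction in lowest terms has an expansion of each parity -/
theorem exists_word (d : ℕ) : ∀ P : ℕ, 1 ≤ P → P < d → Nat.Coprime P d → ∀ e : ℕ, e < 2 →
    ∃ w : List ℕ, Pos w ∧ w.length % 2 = e ∧ p0 w = P ∧ q0 w = d := by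
  induction d using Nat.strong_induction_on with
  | _ d ih =>
    intro P hP hPd hc e he
    rcases Nat.lt_or_ge P 2 with h2 | h2
    · obtain rfl : P = 1 := by omega
      interval_cases e
      · refine ⟨[d - 1, 1], ?_, by simp, ?_, ?_⟩
        · intro a ha
          simp at ha
          omega
        · simp [p0_cons, q0_cons]
        · simp [p0_cons, q0_cons]
          omega
      · refine ⟨[d], ?_, by simp, ?_, ?_⟩
        · intro a ha
          simp at ha
          omega
        · simp [p0_cons]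
        · simp [q0_cons]
    · have hdm := Nat.div_add_mod d P
      have hr : d % P < P := Nat.mod_lt _ (by omega)
      have hcr : Nat.Coprime (d % P) P := by
        unfold Nat.Coprime at hc ⊢
        rwa [← Nat.gcd_rec]
      have hr0 : 1 ≤ d % P := by
        rcases Nat.eq_zero_or_pos (d % P) with h0 | h0
        · rw [h0, Nat.coprime_zero_left] at hcr
          omega
        · exact h0
      obtain ⟨w, h3, h4, h5, h6⟩ := ih P hPd (d % P) hr0 hr hcr (1 - e) (by omega)
      refine ⟨(d / P) :: w, ?_, ?_, ?_, ?_⟩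
      · intro a ha
        rcases List.mem_cons.1 ha with rfl | ha
        · exact Nat.div_pos hPd.le (by omega)
        · exact h3 a ha
      · rw [List.length_cons]
        omega
      · rw [p0_cons, h6]
      · rw [q0_cons, h5, h6, mul_comm]
        exact hdm

end Pool.Agent.Q208.CN
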