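import Pool.Agent.Q208.CN.Mat

set_option autoImplicit false

/-!
# The Gauss measure: invariance
-/

namespace Pool.Agent.Q208.CN

open Q261.CFD Set Filter Topology MeasureTheory
open scoped ENNReal

lemma phi_injOn {w : List ℕ} (hw : Pos w) : InjOn (phi w) (Ici 0) := by
  intro x hx y hy h
  have h1 := phi_sub hw (mem_Ici.1 hx) (mem_Ici.1 hy)
  rw [h, sub_self, abs_zero] at h1
  have h2 := D_pos hw (mem_Ici.1 hx)
  have h3 := D_pos hw (mem_Ici.1 hy)
  have h4 : |x - y| = 0 := by
    by_contra h5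
    have : 0 < |x - y| := lt_of_le_of_ne (abs_nonneg _) (Ne.symm h5)
    have : 0 < |x - y| * (D w x * D w y) := by positivity
    linarith
  exact sub_eq_zero.1 (abs_eq_zero.1 h4)

lemma phi_hasDerivAt {w : List ℕ} (hw : Pos w) {x : ℝ} (hx : 0 ≤ x) :
    HasDerivAt (phi w) ((-1) ^ w.length * D w x ^ 2) x := by
  induction w with
  | nil =>
    have h : phi [] = id := by funext y; rfl
    rw [h]
    exact (hasDerivAt_id x).congr_deriv (by simp)
  | cons a w ih =>
    have h1 : (1 : ℝ) ≤ a := by exact_mod_cast hw.head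
    have h2 := phi_nonneg (w := w) hx
    have h3 : (a : ℝ) + phi w x ≠ 0 := by positivity
    have h4 := ((ih hw.tail).const_add (a : ℝ)).inv h3
    have h5 : phi (a :: w) = (fun x => (a : ℝ) + phi w x)⁻¹ := by
      funext y; rfl
    rw [h5]
    refine h4.congr_deriv ?_
    rw [List.length_cons, D_cons]
    field_simp
    ring

lemma lintegral_image {w : List ℕ} (hw : Pos w) {B : Set ℝ} (hB : MeasurableSet B)
    (hB0 : B ⊆ Ioo 0 1) (g : ℝ → ℝ≥0∞) :
    ∫⁻ x in phi w '' B, g x = ∫⁻ y in B, ENNReal.ofReal (D w y ^ 2) * g (phi w y) := by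
  rw [lintegral_image_eq_lintegral_abs_deriv_mul hB
    (fun x hx => (phi_hasDerivAt hw (hB0 hx).1.le).hasDerivWithinAt)
    ((phi_injOn hw).mono fun x hx => (hB0 hx).1.le)]
  simp only [abs_mul, abs_pow, abs_neg, abs_one, one_pow, one_mul, sq_abs]

lemma phi_continuousOn {w : List ℕ} (hw : Pos w) : ContinuousOn (phi w) (Ici 0) := fun x hx =>
  (phi_hasDerivAt hw (mem_Ici.1 hx)).continuousAt.continuousWithinAt

lemma measurable_image {w : List ℕ} (hw : Pos w) {B : Set ℝ} (hB : MeasurableSet B)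
    (hB0 : B ⊆ Ioo 0 1) : MeasurableSet (phi w '' B) :=
  hB.image_of_continuousOn_injOn ((phi_continuousOn hw).mono fun x hx => (hB0 hx).1.le)
    ((phi_injOn hw).mono fun x hx => (hB0 hx).1.le)

lemma volume_image {w : List ℕ} (hw : Pos w) {B : Set ℝ} (hB : MeasurableSet B)
    (hB0 : B ⊆ Ioo 0 1) : volume (phi w '' B) = ∫⁻ y in B, ENNReal.ofReal (D w y ^ 2) := by
  have h := lintegral_image hw hB hB0 (fun _ => 1)
  simpa using h

lemma volume_image_le {w : List ℕ} (hw : Pos w) {B : Set ℝ} (hB : MeasurableSet B)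
    (hB0 : B ⊆ Ioo 0 1) : volume (phi w '' B) ≤ ENNReal.ofReal (((q0 w : ℝ) ^ 2)⁻¹) * volume B := by
  rw [volume_image hw hB hB0, ← setLIntegral_const]
  apply setLIntegral_mono measurable_const
  intro y hy
  apply ENNReal.ofReal_le_ofReal
  have h1 := D_le_zero hw (hB0 hy).1.le
  rw [D_zero hw] at h1
  rw [← inv_pow]
  exact pow_le_pow_left₀ (D_pos hw (hB0 hy).1.le).le h1 2

lemma volume_image_ge {w : List ℕ} (hw : Pos w) {B : Set ℝ} (hB : MeasurableSet B)
    (hB0 : B ⊆ Ioo 0 1) :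
    ENNReal.ofReal ((4 * (q0 w : ℝ) ^ 2)⁻¹) * volume B ≤ volume (phi w '' B) := by
  rw [volume_image hw hB hB0, ← setLIntegral_const]
  apply setLIntegral_mono' hB
  intro y hy
  apply ENNReal.ofReal_le_ofReal
  have h1 := D_ge_half hw (Ioo_subset_Icc_self (hB0 hy))
  rw [D_zero hw] at h1
  have h2 : (4 * (q0 w : ℝ) ^ 2)⁻¹ = ((q0 w : ℝ)⁻¹ / 2) ^ 2 := by
    rw [div_pow, inv_pow, mul_inv]
    ring
  rw [h2]
  exact pow_le_pow_left₀ (by positivity) h1 2

/-! ### the Gauss measure -/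

/-- the density of the Gauss measure -/
noncomputable def rho (x : ℝ) : ℝ≥0∞ := ENNReal.ofReal ((Real.log 2)⁻¹ * (1 + x)⁻¹)

lemma measurable_rho : Measurable rho := by unfold rho; fun_prop

/-- the Gauss measure -/
noncomputable def gm : Measure ℝ := (volume.restrict (Ioo 0 1)).withDensity rho

lemma gm_apply {s : Set ℝ} (hs : MeasurableSet s) : gm s = ∫⁻ x in s ∩ Ioo 0 1, rho x := by
  rw [gm, withDensity_apply _ hs, Measure.restrict_restrict hs]

lemma lintegral_rho {a b : ℝ} (ha : 0 ≤ a) (hab : a ≤ b) :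
    ∫⁻ x in Ioo a b, rho x =
      ENNReal.ofReal ((Real.log 2)⁻¹ * (Real.log (1 + b) - Real.log (1 + a))) := by
  have hl : 0 < Real.log 2 := Real.log_pos (by norm_num)
  have h1 : ∫ x in a..b, (Real.log 2)⁻¹ * (1 + x)⁻¹ =
      (Real.log 2)⁻¹ * (Real.log (1 + b) - Real.log (1 + a)) := by
    rw [intervalIntegral.integral_const_mul]
    congr 1
    have : ∫ x in a..b, (1 + x)⁻¹ = ∫ x in (1 + a)..(1 + b), x⁻¹ :=
      intervalIntegral.integral_comp_add_left (fun x => x⁻¹) 1
    rw [this, integral_inv_of_pos (by linarith) (by linarith), Real.log_div (by linarith)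
      (by linarith)]
  have hc : ContinuousOn (fun x : ℝ => (Real.log 2)⁻¹ * (1 + x)⁻¹) (Icc a b) := by
    apply ContinuousOn.mul continuousOn_const
    apply ContinuousOn.inv₀ (by fun_prop)
    intro x hx
    have := hx.1
    linarith
  rw [← h1, intervalIntegral.integral_of_le hab, integral_Ioc_eq_integral_Ioo,
    ofReal_integral_eq_lintegral_ofReal]
  · rfl
  · exact (hc.integrableOn_Icc).mono_set Ioo_subset_Icc_self
  · filter_upwards [ae_restrict_mem measurableSet_Ioo] with x hx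
    have := hx.1
    have : 0 < 1 + x := by linarith
    positivity

end Pool.Agent.Q208.CN
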