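import Pool.Agent.Q208.CN.Cnt

set_option autoImplicit false

/-!
# Fractions whose denominator is a given prime power and whose expansion is typical
-/

namespace Pool.Agent.Q208.CN

open Q261.CFD Set Filter Topology MeasureTheory Metric
open scoped ENNReal

/-! ### three ways to be near a bad set -/

lemma near_one {d : ℕ} {B : Set ℝ} {v s : List ℕ} (hv : Pos v) (hs : Pos s)
    (hd : q0 (v ++ s) = d) (hq : q0 v ^ 2 ≤ d) (hB : phi v '' Ioo 0 1 ⊆ B) :
    Near d B (p0 (v ++ s)) := by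
  have hq1 : (1 : ℝ) ≤ q0 v := by exact_mod_cast q0_pos hv
  have h1 : ((p0 (v ++ s) : ℕ) : ℝ) / d = phi v (phi s 0) := by
    rw [← phi_append, phi_zero (hv.append hs), hd]
  have h2 := phi_between hv (phi_mem hs (x := 0) ⟨le_rfl, zero_le_one⟩)
  refine ⟨min (phi v 0) (phi v 1), max (phi v 0) (phi v 1), ?_, ?_, ?_, ?_⟩
  · rw [h1]; exact h2.1
  · rw [h1]; exact h2.2
  · rw [max_sub_min_eq_abs, abs_sub_comm]
    refine le_trans ?_ (length_ge hv)
    rw [one_div]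
    have h3 : ((q0 v : ℝ)) ^ 2 ≤ d := by exact_mod_cast hq
    apply inv_anti₀ (by positivity)
    linarith
  · rw [← image_Ioo hv one_pos, diff_eq_empty.2 hB, measure_empty]

lemma near_two {κ n d : ℕ} {z₁ z₂ : List ℕ} {a : ℕ} (h1 : Pos z₁) (ha : 1 ≤ a) (h2 : Pos z₂)
    (hd : q0 (z₁ ++ a :: z₂) = d) (hq : q0 z₁ ^ 2 ≤ d) (hq' : d < q0 (z₁ ++ [a]) ^ 2)
    (hs : 2 ^ (4 * κ * (z₁.length + 1)) ≤ d) (hn : 2 ^ (4 * κ * n) ≤ d) :
    Near d (Bad (Gr κ) n) (p0 (z₁ ++ a :: z₂)) := by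
  classical
  have hq1 := q0_pos h1
  have hq1' : (1 : ℝ) ≤ q0 z₁ := by exact_mod_cast hq1
  have hex : ∃ b : ℕ, 1 ≤ b ∧ d < q0 (z₁ ++ [b]) ^ 2 := ⟨a, ha, hq'⟩
  set b := Nat.find hex with hb
  obtain ⟨hb1, hb2⟩ := Nat.find_spec hex
  rw [← hb] at hb1 hb2
  have hba : b ≤ a := Nat.find_min' hex ⟨ha, hq'⟩
  have hbq : q0 z₁ * q0 (z₁ ++ [b]) ≤ 2 * d := by
    rcases Nat.lt_or_ge b 2 with h | h
    · have h3 : b = 1 := by omega
      rw [h3, q0_concat]
      have := q1_le_q0 h1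
      nlinarith
    · have h3 : ¬ (1 ≤ b - 1 ∧ d < q0 (z₁ ++ [b - 1]) ^ 2) := Nat.find_min hex (by omega)
      have h4 : q0 (z₁ ++ [b - 1]) ^ 2 ≤ d := by
        by_contra h5
        exact h3 ⟨by omega, not_le.1 h5⟩
      have h5 : q0 (z₁ ++ [b]) = q0 (z₁ ++ [b - 1]) + q0 z₁ := by
        rw [q0_concat, q0_concat]
        obtain ⟨c, hc⟩ : ∃ c, b = c + 1 := ⟨b - 1, by omega⟩
        rw [hc, Nat.add_sub_cancel]
        ring
      rw [h5]
      nlinarith [sq_nonneg ((q0 z₁ : ℤ) - q0 (z₁ ++ [b - 1])), Nat.zero_le (q0 z₁),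
        (by
          have := sq_nonneg ((q0 z₁ : ℤ) - q0 (z₁ ++ [b - 1]))
          zify
          nlinarith : 2 * (q0 z₁ * q0 (z₁ ++ [b - 1])) ≤ q0 z₁ ^ 2 + q0 (z₁ ++ [b - 1]) ^ 2)]
  have hb1' : (1 : ℝ) ≤ b := by exact_mod_cast hb1
  have hpa : Pos (a :: z₂) := fun c hc => by
    rcases List.mem_cons.1 hc with rfl | hc
    · exact ha
    · exact h2 c hc
  have e1 : ((p0 (z₁ ++ a :: z₂) : ℕ) : ℝ) / d = phi z₁ (phi (a :: z₂) 0) := by
    rw [← phi_append, phi_zero (h1.append hpa), hd]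
  have e2 : phi (a :: z₂) 0 ∈ Icc (0 : ℝ) ((b : ℝ)⁻¹) := by
    refine ⟨phi_nonneg le_rfl, ?_⟩
    rw [phi_cons]
    apply inv_anti₀ (by linarith)
    have h3 : (b : ℝ) ≤ a := by exact_mod_cast hba
    have := phi_nonneg (w := z₂) (le_refl (0 : ℝ))
    linarith
  have e3 := phi_between h1 e2
  refine ⟨min (phi z₁ 0) (phi z₁ (b : ℝ)⁻¹), max (phi z₁ 0) (phi z₁ (b : ℝ)⁻¹), ?_, ?_, ?_, ?_⟩
  · rw [e1]; exact e3.1
  · rw [e1]; exact e3.2
  · rw [max_sub_min_eq_abs, abs_sub_comm, phi_dist_eq h1 le_rfl (by positivity)]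
    have h3 : (q0 z₁ : ℝ) * q0 (z₁ ++ [b]) ≤ 2 * d := by exact_mod_cast hbq
    rw [q0_concat] at h3
    push_cast at h3
    have h4 : |0 - (b : ℝ)⁻¹| = (b : ℝ)⁻¹ := by
      rw [zero_sub, abs_neg, abs_of_pos (by positivity)]
    have h5 : |0 - (b : ℝ)⁻¹| / ((q0 z₁ + q1 z₁ * 0) * (q0 z₁ + q1 z₁ * (b : ℝ)⁻¹)) =
        1 / ((q0 z₁ : ℝ) * (b * q0 z₁ + q1 z₁)) := by
      rw [h4]
      field_simp
      ring
    rw [h5]
    apply one_div_le_one_div_of_le (by positivity)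
    exact h3
  · rw [← image_Ioo h1 (by positivity)]
    have h3 : volume {x : ℝ | ¬ Irrational x} = 0 := ae_iff.1 ae_irrational
    refine measure_mono_null ?_ h3
    rintro x ⟨⟨y, hy, rfl⟩, hxB⟩
    by_contra hx
    rw [mem_setOf_eq, not_not] at hx
    apply hxB
    have hy1 : y ∈ Ioo (0 : ℝ) 1 := ⟨hy.1, lt_of_lt_of_le hy.2 (inv_le_one_of_one_le₀ hb1')⟩
    have hyi : Irrational y := by
      have := irrational_iter hx z₁.length
      rwa [gauss_phi h1 hy1] at this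
    obtain ⟨c, hc, -, hc2⟩ := eq_branch hy1
    have hg := gauss_mem hyi
    have hbc : b ≤ c := by
      by_contra hcon
      have h4 : (c : ℝ) + 1 ≤ b := by exact_mod_cast not_le.1 hcon
      have h5 : y⁻¹ = c + gauss y := by rw [hc2, inv_inv, ← hc2]
      have h6 : (b : ℝ) < y⁻¹ := by
        rw [lt_inv_comm₀ (by linarith) hy.1]
        exact hy.2
      linarith [hg.2]
    have hpc : Pos (z₁ ++ [c]) := h1.append (pos_single hc)
    simp only [Bad, mem_iUnion, mem_setOf_eq]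
    refine ⟨z₁ ++ [c], ⟨hpc, ?_⟩, gauss y, hg, ?_⟩
    · intro hgr
      unfold Gr at hgr
      have h4 : q0 (z₁ ++ [b]) ≤ q0 (z₁ ++ [c]) := by
        rw [q0_concat, q0_concat]
        have := Nat.mul_le_mul_right (q0 z₁) hbc
        omega
      have h5 : d < (2 ^ (κ * ((z₁ ++ [c]).length + n))) ^ 2 :=
        lt_of_lt_of_le hb2 (Nat.pow_le_pow_left (h4.trans hgr) 2)
      rw [List.length_append, List.length_singleton, ← pow_mul] at h5
      have h6 : 2 ^ (κ * (z₁.length + 1 + n) * 2) =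
          2 ^ (2 * κ * (z₁.length + 1)) * 2 ^ (2 * κ * n) := by
        rw [← pow_add]; congr 1; ring
      rw [h6] at h5
      have h7 : (2 ^ (2 * κ * (z₁.length + 1))) ^ 2 ≤ d := by
        rw [← pow_mul]
        convert hs using 2
        ring
      have h8 : (2 ^ (2 * κ * n)) ^ 2 ≤ d := by
        rw [← pow_mul]
        convert hn using 2
        ring
      generalize 2 ^ (2 * κ * (z₁.length + 1)) = A at h5 h7
      generalize 2 ^ (2 * κ * n) = M at h5 h8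
      have h9 : d ^ 2 < (A * M) ^ 2 := Nat.pow_lt_pow_left h5 (by norm_num)
      have h10 : (A * M) ^ 2 ≤ d * d := by
        rw [mul_pow]
        exact Nat.mul_le_mul h7 h8
      nlinarith
    · rw [phi_append]
      congr 1
      rw [phi_cons, phi_nil]
      exact hc2.symm

/-! ### expansions through a given cylinder -/

lemma rat_iter (n : ℕ) (x : ℚ) : ∃ r : ℚ, gauss^[n] (x : ℝ) = r := by
  induction n with
  | zero => exact ⟨x, rfl⟩
  | succ n ih =>
    obtain ⟨r, hr⟩ := ih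
    refine ⟨Int.fract r⁻¹, ?_⟩
    rw [Function.iterate_succ_apply', hr]
    unfold gauss
    push_cast
    rfl

theorem exists_ext {u : List ℕ} (hu : Pos u) {d P : ℕ} (hd : 1 ≤ d) (hc : Nat.Coprime P d)
    (h : (P : ℝ) / d ∈ phi u '' Ioo 0 1) : ∃ v : List ℕ, Pos v ∧ (u ++ v).length % 2 = 0 ∧
      p0 (u ++ v) = P ∧ q0 (u ++ v) = d := by
  obtain ⟨y, hy, hyx⟩ := h
  obtain ⟨r, hr⟩ := rat_iter u.length ((P : ℚ) / d)
  push_cast at hr
  rw [← hyx, gauss_phi hu hy] at hr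
  subst hr
  have hr0 : 0 < r := by exact_mod_cast hy.1
  have hr1 : r < 1 := by exact_mod_cast hy.2
  have hnum : 0 < r.num := Rat.num_pos.2 hr0
  have hrd : (r : ℚ) = (r.num.toNat : ℚ) / r.den := by
    have h1 : ((r.num.toNat : ℕ) : ℚ) = (r.num : ℚ) := by
      have : ((r.num.toNat : ℕ) : ℤ) = r.num := by omega
      exact_mod_cast congrArg (fun z : ℤ => (z : ℚ)) this
    rw [h1]
    exact (Rat.num_div_den r).symm
  have hlt : r.num.toNat < r.den := by
    have h1 : (0 : ℚ) < r.den := by exact_mod_cast r.den_pos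
    rw [hrd, div_lt_one h1] at hr1
    exact_mod_cast hr1
  have hcop : Nat.Coprime r.num.toNat r.den := by
    have h1 := r.reduced
    have : r.num.toNat = r.num.natAbs := by omega
    rwa [this]
  obtain ⟨v, h1, h2, h3, h4⟩ := exists_word r.den r.num.toNat (by omega) hlt hcop
    (u.length % 2) (Nat.mod_lt _ (by norm_num))
  have h5 : phi v 0 = (r : ℝ) := by
    rw [phi_zero h1, h3, h4]
    have : ((r : ℚ) : ℝ) = (((r.num.toNat : ℚ) / r.den : ℚ) : ℝ) := by rw [← hrd]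
    rw [this]
    push_cast
    rfl
  have h6 : (p0 (u ++ v) : ℝ) / q0 (u ++ v) = (P : ℝ) / d := by
    rw [← phi_zero (hu.append h1), phi_append, h5]
    exact hyx
  have hq : 1 ≤ q0 (u ++ v) := q0_pos (hu.append h1)
  have hq' : (0 : ℝ) < q0 (u ++ v) := by exact_mod_cast hq
  have hd' : (0 : ℝ) < d := by exact_mod_cast hd
  rw [div_eq_div_iff hq'.ne' hd'.ne'] at h6
  have h7 : p0 (u ++ v) * d = P * q0 (u ++ v) := by exact_mod_cast h6
  have hc2 := coprime_pq (u ++ v)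
  have h8 : q0 (u ++ v) ∣ d := by
    have : q0 (u ++ v) ∣ p0 (u ++ v) * d := by rw [h7]; exact dvd_mul_left _ _
    exact (Nat.Coprime.dvd_of_dvd_mul_left hc2.symm this)
  have h9 : d ∣ q0 (u ++ v) := by
    have : d ∣ P * q0 (u ++ v) := by rw [← h7]; exact dvd_mul_left _ _
    exact (Nat.Coprime.dvd_of_dvd_mul_left hc.symm this)
  have h10 : q0 (u ++ v) = d := Nat.dvd_antisymm h8 h9
  refine ⟨v, h1, ?_, ?_, h10⟩
  · rw [List.length_append]
    omega
  · rw [h10] at h7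
    exact Nat.eq_of_mul_eq_mul_right (by omega) h7

lemma q1_inj {z z' : List ℕ} (hz : z.length % 2 = 0) (hz' : z'.length % 2 = 0) {d : ℕ}
    (h1 : q0 z = d) (h2 : q0 z' = d) (h3 : p0 z < d) (h4 : p0 z' < d) (h : q1 z = q1 z') :
    p0 z = p0 z' := by
  have e1 := det_mat z
  have e2 := det_mat z'
  have o1 : (-1 : ℤ) ^ z.length = 1 := Even.neg_one_pow (Nat.even_iff.2 hz)
  have o2 : (-1 : ℤ) ^ z'.length = 1 := Even.neg_one_pow (Nat.even_iff.2 hz')
  rw [o1, h1] at e1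
  rw [o2, h2, ← h] at e2
  have e3 : (q1 z : ℤ) * ((p0 z : ℤ) - p0 z') = d * ((p1 z : ℤ) - p1 z') := by linarith
  have hc : IsCoprime (d : ℤ) (q1 z : ℤ) := ⟨p1 z, -p0 z, by linarith⟩
  have e4 : (d : ℤ) ∣ (p0 z : ℤ) - p0 z' := by
    apply hc.dvd_of_dvd_mul_left
    rw [e3]
    exact dvd_mul_right _ _
  have e5 : (p0 z : ℤ) - p0 z' = 0 := by
    apply Int.eq_zero_of_abs_lt_dvd e4
    rw [abs_lt]
    constructor <;> omega
  omega

end Pool.Agent.Q208.CN
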