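import Pool.Agent.Q208.CN.Sel

set_option autoImplicit false

/-!
# The selection of a typical fraction
-/

namespace Pool.Agent.Q208.CN

open Q261.CFD Set Filter Topology MeasureTheory Metric
open scoped ENNReal

theorem exists_level {g : ℕ → List ℕ → Prop} (hm : ∀ n m v, n ≤ m → g n v → g m v)
    (hae : ∀ᵐ y ∂(volume.restrict (Ioo (0 : ℝ) 1)), ∃ n, ∀ N, g n (pre (dig y) N)) {δ : ℝ}
    (hδ : 0 < δ) : ∃ n, volume (Bad g n) ≤ ENNReal.ofReal δ := by
  have h := Bad_tendsto hm hae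
  have h1 : (0 : ℝ≥0∞) < ENNReal.ofReal δ := ENNReal.ofReal_pos.2 hδ
  obtain ⟨n, hn⟩ := (h.eventually (eventually_le_nhds h1)).exists
  exact ⟨n, hn⟩

theorem select {κ : ℕ} (hG : ∀ᵐ y ∂(volume.restrict (Ioo (0 : ℝ) 1)), ∃ n, ∀ N,
    Gr κ n (pre (dig y) N)) {W : Finset (List ℕ)} (hW : ∀ w ∈ W, w ≠ [])
    (hW' : ∀ w ∈ W, Pos w) {ε : ℝ} (hε : 0 < ε) {n₁ : ℕ}
    (h1 : volume (Bad (Gd W ε) n₁) ≤ ENNReal.ofReal (1 / 64)) {u : List ℕ} (hu : Pos u) :
    ∃ n₂ D₀ : ℕ, ∀ p k : ℕ, p.Prime → D₀ ≤ p ^ k → ∃ v : List ℕ, Pos v ∧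
      q0 (u ++ v) = p ^ k ∧
      (∀ v' v'', v = v' ++ v'' → q0 (u ++ v') ^ 2 ≤ p ^ k → Gd W ε n₁ v') ∧
      (∀ z' s, u ++ v = z' ++ s → q0 s ^ 2 ≤ p ^ k → Gd W ε n₂ s) ∧
      (∀ z₁ a z₂, u ++ v = z₁ ++ a :: z₂ → q0 z₁ ^ 2 ≤ p ^ k → p ^ k < q0 (z₁ ++ [a]) ^ 2 →
        p ^ k < 2 ^ (4 * κ * (z₁.length + 1))) := by
  classical
  have hq := q0_pos hu
  have hq' : (1 : ℝ) ≤ q0 u := by exact_mod_cast hq
  set δ : ℝ := 1 / (64 * (q0 u : ℝ) ^ 2) with hδ
  have hδ0 : 0 < δ := by positivity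
  have hWr : ∀ w ∈ W.image List.reverse, w ≠ [] := by
    intro w hw
    obtain ⟨w', hw', rfl⟩ := Finset.mem_image.1 hw
    simpa using hW w' hw'
  obtain ⟨n₂, hn₂⟩ := exists_level (Gd_mono (W.image List.reverse) ε) (Gd_ae hWr hε) hδ0
  obtain ⟨n₃, hn₃⟩ := exists_level (Gr_mono κ) hG hδ0
  refine ⟨n₂, max (2 ^ (4 * κ * n₃)) (41 * q0 u ^ 2), fun p k hp hD => ?_⟩
  set d := p ^ k with hd
  have hd1 : 1 ≤ d := Nat.one_le_pow _ _ hp.pos
  have hd' : (1 : ℝ) ≤ d := by exact_mod_cast hd1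
  have hD1 : 2 ^ (4 * κ * n₃) ≤ d := (le_max_left _ _).trans hD
  have hD2 : 41 * q0 u ^ 2 ≤ d := (le_max_right _ _).trans hD
  have hD2' : 41 * (q0 u : ℝ) ^ 2 ≤ d := by exact_mod_cast hD2
  -- the fractions in the cylinder of `u`
  set S : Finset ℕ := (Finset.range d).filter fun P : ℕ => Nat.Coprime P d ∧
    (P : ℝ) / (d : ℝ) ∈ Ioo (min (phi u 0) (phi u 1)) (max (phi u 0) (phi u 1)) with hS
  have hcardS : (d : ℝ) / (4 * (q0 u : ℝ) ^ 2) - 5 / 2 ≤ (S.card : ℝ) := by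
    have h2 := coprime_count (k := k) hp
      (le_min (phi_nonneg (w := u) (le_refl (0 : ℝ))) (phi_nonneg (w := u) zero_le_one))
      (max_le (phi_le_one hu le_rfl zero_le_one) (phi_le_one hu zero_le_one le_rfl))
    refine le_trans ?_ h2
    rw [max_sub_min_eq_abs, abs_sub_comm]
    have h3 := length_ge hu
    have h4 : (2 * (q0 u : ℝ) ^ 2)⁻¹ * d / 2 = (d : ℝ) / (4 * (q0 u : ℝ) ^ 2) := by
      field_simp; norm_num
    rw [← hd]
    have h5 : (2 * (q0 u : ℝ) ^ 2)⁻¹ * d ≤ |phi u 0 - phi u 1| * d :=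
      mul_le_mul_of_nonneg_right h3 (by positivity)
    linarith
  have hext : ∀ P : ℕ, ∃ v : List ℕ, P ∈ S → Pos v ∧ (u ++ v).length % 2 = 0 ∧
      p0 (u ++ v) = P ∧ q0 (u ++ v) = d := by
    intro P
    by_cases hP : P ∈ S
    · rw [hS, Finset.mem_filter] at hP
      have h2 := hP.2.2
      rw [← image_Ioo hu one_pos] at h2
      obtain ⟨v, hv⟩ := exists_ext hu hd1 hP.2.1 h2
      exact ⟨v, fun _ => hv⟩
    · exact ⟨[], fun h => absurd h hP⟩
  choose V hV using hext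
  -- the three families of bad fractions
  set S1 : Finset ℕ := S.filter fun P => ¬ (∀ v' v'', V P = v' ++ v'' →
    q0 (u ++ v') ^ 2 ≤ d → Gd W ε n₁ v') with hS1
  set S2 : Finset ℕ := S.filter fun P => ¬ (∀ z' s, u ++ V P = z' ++ s →
    q0 s ^ 2 ≤ d → Gd W ε n₂ s) with hS2
  set S3 : Finset ℕ := S.filter fun P => ¬ (∀ z₁ a z₂, u ++ V P = z₁ ++ a :: z₂ →
    q0 z₁ ^ 2 ≤ d → d < q0 (z₁ ++ [a]) ^ 2 → d < 2 ^ (4 * κ * (z₁.length + 1))) with hS3
  have c1 : (S1.card : ℝ) ≤ 4 * d * δ := by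
    apply card_near hd1 (B := phi u '' Bad (Gd W ε) n₁)
      (measurable_image hu (measurableSet_Bad _ _) (Bad_sub _ _)) _ hδ0.le
    · refine (volume_image_le hu (measurableSet_Bad _ _) (Bad_sub _ _)).trans ?_
      refine (mul_le_mul_right h1 _).trans ?_
      rw [← ENNReal.ofReal_mul (by positivity)]
      apply ENNReal.ofReal_le_ofReal
      rw [hδ]
      apply le_of_eq
      field_simp
    · intro P hP
      rw [hS1, Finset.mem_filter] at hP
      obtain ⟨hPS, hP2⟩ := hP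
      obtain ⟨e1, -, e3, e4⟩ := hV P hPS
      push Not at hP2
      obtain ⟨v', v'', h2, h3, h4⟩ := hP2
      have hv' : Pos v' := fun a ha => e1 a (by rw [h2]; exact List.mem_append_left _ ha)
      have hv'' : Pos v'' := fun a ha => e1 a (by rw [h2]; exact List.mem_append_right _ ha)
      have h5 : u ++ V P = (u ++ v') ++ v'' := by rw [h2, List.append_assoc]
      rw [← e3, h5]
      apply near_one (hu.append hv') hv'' (by rw [← h5]; exact e4) h3
      rintro x ⟨y, hy, rfl⟩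
      rw [phi_append]
      refine ⟨phi v' y, ?_, rfl⟩
      simp only [Bad, mem_iUnion, mem_setOf_eq]
      exact ⟨v', ⟨hv', h4⟩, y, hy, rfl⟩
  have c3 : (S3.card : ℝ) ≤ 4 * d * δ := by
    apply card_near hd1 (B := Bad (Gr κ) n₃) (measurableSet_Bad _ _) _ hδ0.le hn₃
    intro P hP
    rw [hS3, Finset.mem_filter] at hP
    obtain ⟨hPS, hP2⟩ := hP
    obtain ⟨e1, -, e3, e4⟩ := hV P hPS
    push Not at hP2
    obtain ⟨z₁, a, z₂, h2, h3, h4, h5⟩ := hP2
    have hz : Pos (z₁ ++ a :: z₂) := by rw [← h2]; exact hu.append e1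
    have hz₁ : Pos z₁ := fun b hb => hz b (List.mem_append_left _ hb)
    have ha : 1 ≤ a := hz a (List.mem_append_right _ List.mem_cons_self)
    have hz₂ : Pos z₂ := fun b hb => hz b (List.mem_append_right _ (List.mem_cons_of_mem _ hb))
    rw [← e3, h2]
    exact near_two hz₁ ha hz₂ (by rw [← h2]; exact e4) h3 h4 h5 hD1
  have c2 : (S2.card : ℝ) ≤ 4 * d * δ := by
    have hlt : ∀ P ∈ S, p0 (u ++ V P) < d := fun P hP => by
      rw [(hV P hP).2.2.1]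
      rw [hS, Finset.mem_filter, Finset.mem_range] at hP
      exact hP.1
    have hinj : InjOn (fun P => q1 (u ++ V P)) (S2 : Set ℕ) := by
      intro P hP R hR h
      have hPS : P ∈ S := (Finset.mem_filter.1 hP).1
      have hRS : R ∈ S := (Finset.mem_filter.1 hR).1
      have h2 := q1_inj (hV P hPS).2.1 (hV R hRS).2.1 (hV P hPS).2.2.2 (hV R hRS).2.2.2
        (hlt P hPS) (hlt R hRS) h
      rw [(hV P hPS).2.2.1, (hV R hRS).2.2.1] at h2
      exact h2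
    rw [← Finset.card_image_of_injOn hinj]
    apply card_near hd1 (B := Bad (Gd (W.image List.reverse) ε) n₂) (measurableSet_Bad _ _) _
      hδ0.le hn₂
    intro R hR
    obtain ⟨P, hP, rfl⟩ := Finset.mem_image.1 hR
    rw [hS2, Finset.mem_filter] at hP
    obtain ⟨hPS, hP2⟩ := hP
    obtain ⟨e1, -, e3, e4⟩ := hV P hPS
    push Not at hP2
    obtain ⟨z', s, h2, h3, h4⟩ := hP2
    have hz : Pos (z' ++ s) := by rw [← h2]; exact hu.append e1
    have hz' : Pos z' := fun b hb => hz b (List.mem_append_left _ hb)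
    have hs : Pos s := fun b hb => hz b (List.mem_append_right _ hb)
    have h5 : (u ++ V P).reverse = s.reverse ++ z'.reverse := by rw [h2, List.reverse_append]
    show Near d _ (q1 (u ++ V P))
    rw [← p0_reverse, h5]
    apply near_one (Pos.reverse hs) (Pos.reverse hz') (by rw [← h5, q0_reverse]; exact e4)
      (by rw [q0_reverse]; exact h3)
    intro x hx
    simp only [Bad, mem_iUnion, mem_setOf_eq]
    refine ⟨s.reverse, ⟨Pos.reverse hs, fun h6 => h4 ?_⟩, hx⟩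
    have := Gd_reverse hW hW' h6
    rwa [List.reverse_reverse] at this
  have hex : ∃ P ∈ S, P ∉ S1 ∪ S2 ∪ S3 := by
    by_contra hcon
    push Not at hcon
    have h2 : S ⊆ S1 ∪ S2 ∪ S3 := hcon
    have h3 := Finset.card_le_card h2
    have h4 : (S1 ∪ S2 ∪ S3).card ≤ S1.card + S2.card + S3.card :=
      (Finset.card_union_le _ _).trans (Nat.add_le_add_right (Finset.card_union_le _ _) _)
    have h5 : (S.card : ℝ) ≤ S1.card + S2.card + S3.card := by exact_mod_cast h3.trans h4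
    have h6 : 4 * (d : ℝ) * δ = (d : ℝ) / (16 * (q0 u : ℝ) ^ 2) := by
      rw [hδ]; field_simp; norm_num
    have h7 : (d : ℝ) / (4 * (q0 u : ℝ) ^ 2) = 4 * ((d : ℝ) / (16 * (q0 u : ℝ) ^ 2)) := by
      field_simp; norm_num
    have h8 : (41 : ℝ) / 16 ≤ (d : ℝ) / (16 * (q0 u : ℝ) ^ 2) := by
      rw [div_le_div_iff₀ (by norm_num) (by positivity)]
      nlinarith
    rw [h7] at hcardS
    rw [h6] at c1 c2 c3
    linarith
  obtain ⟨P, hPS, hP⟩ := hex
  simp only [Finset.mem_union, not_or] at hP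
  obtain ⟨⟨g1, g2⟩, g3⟩ := hP
  have g1' : ∀ v' v'', V P = v' ++ v'' → q0 (u ++ v') ^ 2 ≤ d → Gd W ε n₁ v' := by
    by_contra h
    exact g1 (Finset.mem_filter.2 ⟨hPS, h⟩)
  have g2' : ∀ z' s, u ++ V P = z' ++ s → q0 s ^ 2 ≤ d → Gd W ε n₂ s := by
    by_contra h
    exact g2 (Finset.mem_filter.2 ⟨hPS, h⟩)
  have g3' : ∀ z₁ a z₂, u ++ V P = z₁ ++ a :: z₂ →
    q0 z₁ ^ 2 ≤ d → d < q0 (z₁ ++ [a]) ^ 2 → d < 2 ^ (4 * κ * (z₁.length + 1)) := by
    by_contra h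
    exact g3 (Finset.mem_filter.2 ⟨hPS, h⟩)
  exact ⟨V P, (hV P hPS).1, (hV P hPS).2.2.2, g1', g2', g3'⟩

end Pool.Agent.Q208.CN
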