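import Pool.Agent.Q208.CN.Sel2

set_option autoImplicit false

/-!
# Extending a word by a long typical word such that the continuant is a given prime power
-/

namespace Pool.Agent.Q208.CN

open Q261.CFD Set Filter Topology MeasureTheory Metric
open scoped ENNReal

lemma crossing (Pr : List ℕ → Prop) (v : List ℕ) : ∀ u : List ℕ, Pr u → ¬ Pr (u ++ v) →
    ∃ v₁ a v₂, v = v₁ ++ a :: v₂ ∧ Pr (u ++ v₁) ∧ ¬ Pr (u ++ v₁ ++ [a]) := by
  induction v with
  | nil => intro u h1 h2; rw [List.append_nil] at h2; exact absurd h1 h2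
  | cons a v ih =>
    intro u h1 h2
    by_cases h3 : Pr (u ++ [a])
    · obtain ⟨v₁, b, v₂, h4, h5, h6⟩ := ih (u ++ [a]) h3 (by
        rw [List.append_assoc, List.singleton_append]; exact h2)
      refine ⟨a :: v₁, b, v₂, ?_, ?_, ?_⟩
      · rw [h4, List.cons_append]
      · rw [List.append_assoc, List.singleton_append] at h5; exact h5
      · rw [List.append_assoc u, List.singleton_append] at h6; exact h6
    · exact ⟨[], a, v, rfl, by rwa [List.append_nil], by rwa [List.append_nil]⟩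

/-- the discrepancy -/
noncomputable def disc (w v : List ℕ) : ℝ := |(occ w v : ℝ) - v.length * mu w|

lemma disc_append_le (w u v : List ℕ) : disc w (u ++ v) ≤ disc w u + disc w v + w.length := by
  have h1 := occ_append_ge w u v
  have h2 := (occ_append_le w u v).trans (Nat.add_le_add_left (min_le_right _ _) _)
  have h1' : (occ w u : ℝ) + occ w v ≤ occ w (u ++ v) := by exact_mod_cast h1
  have h2' : (occ w (u ++ v) : ℝ) ≤ occ w u + occ w v + w.length := by exact_mod_cast h2
  unfold disc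
  rw [List.length_append]
  push_cast
  have h3 := le_abs_self ((occ w u : ℝ) - u.length * mu w)
  have h4 := neg_abs_le ((occ w u : ℝ) - u.length * mu w)
  have h5 := le_abs_self ((occ w v : ℝ) - v.length * mu w)
  have h6 := neg_abs_le ((occ w v : ℝ) - v.length * mu w)
  have h7 : (0 : ℝ) ≤ w.length := Nat.cast_nonneg _
  rw [abs_le]
  constructor <;> linarith

lemma disc_left_le (w u v : List ℕ) : disc w u ≤ disc w (u ++ v) + disc w v + w.length := by
  have h1 := occ_append_ge w u v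
  have h2 := (occ_append_le w u v).trans (Nat.add_le_add_left (min_le_right _ _) _)
  have h1' : (occ w u : ℝ) + occ w v ≤ occ w (u ++ v) := by exact_mod_cast h1
  have h2' : (occ w (u ++ v) : ℝ) ≤ occ w u + occ w v + w.length := by exact_mod_cast h2
  unfold disc
  rw [List.length_append]
  push_cast
  have h3 := le_abs_self ((occ w (u ++ v) : ℝ) - (u.length + v.length) * mu w)
  have h4 := neg_abs_le ((occ w (u ++ v) : ℝ) - (u.length + v.length) * mu w)
  have h5 := le_abs_self ((occ w v : ℝ) - v.length * mu w)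
  have h6 := neg_abs_le ((occ w v : ℝ) - v.length * mu w)
  have h7 : (0 : ℝ) ≤ w.length := Nat.cast_nonneg _
  rw [abs_le]
  constructor <;> linarith

lemma disc_single (w : List ℕ) (a : ℕ) : disc w [a] ≤ 1 := by
  have h1 := mu_nonneg w
  have h2 := mu_le_one w
  have h3 : occ w [a] ≤ 1 := occ_le w [a]
  have h4 : (occ w [a] : ℝ) ≤ 1 := by exact_mod_cast h3
  have h5 : (0 : ℝ) ≤ occ w [a] := Nat.cast_nonneg _
  unfold disc
  rw [List.length_singleton, Nat.cast_one, one_mul, abs_le]
  constructor <;> linarith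

lemma disc_le_length (w v : List ℕ) : disc w v ≤ v.length := by
  have h1 := mu_nonneg w
  have h2 := mu_le_one w
  have h4 : (occ w v : ℝ) ≤ v.length := by exact_mod_cast occ_le w v
  have h5 : (0 : ℝ) ≤ occ w v := Nat.cast_nonneg _
  have h6 : (0 : ℝ) ≤ v.length := Nat.cast_nonneg _
  unfold disc
  rw [abs_le]
  constructor <;> nlinarith

lemma disc_nonneg (w v : List ℕ) : 0 ≤ disc w v := abs_nonneg _

theorem stage {κ : ℕ} (hκ : 1 ≤ κ) (hG : ∀ᵐ y ∂(volume.restrict (Ioo (0 : ℝ) 1)), ∃ n, ∀ N,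
    Gr κ n (pre (dig y) N)) {W : Finset (List ℕ)} (hW : ∀ w ∈ W, w ≠ [])
    (hW' : ∀ w ∈ W, Pos w) {ε : ℝ} (hε : 0 < ε) :
    ∃ n : ℕ, ∀ u : List ℕ, Pos u → ∀ Z : ℕ, ∃ D₀ : ℕ, ∀ p k : ℕ, p.Prime → D₀ ≤ p ^ k →
      ∃ v : List ℕ, Pos v ∧ q0 (u ++ v) = p ^ k ∧ Z ≤ v.length ∧
        ∀ v' v'', v = v' ++ v'' → ∀ w ∈ W, disc w v' ≤ ε * v'.length + n := by
  set C : ℝ := 16 * κ + 2 with hC
  have hκ' : (1 : ℝ) ≤ κ := by exact_mod_cast hκ
  have hC0 : 0 < C := by positivity
  set e : ℝ := ε / C with he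
  have he0 : 0 < e := by positivity
  have heC : e * C = ε := by rw [he]; field_simp
  obtain ⟨n₁, hn₁⟩ := exists_level (Gd_mono W e) (Gd_ae hW he0) (by norm_num : (0 : ℝ) < 1 / 64)
  set L : ℕ := W.sup List.length with hL
  have hLw : ∀ w ∈ W, (w.length : ℝ) ≤ L := fun w hw => by
    have : w.length ≤ L := Finset.le_sup (f := List.length) hw
    exact_mod_cast this
  refine ⟨n₁ + 3 * L + 1, fun u hu Z => ?_⟩
  obtain ⟨n₂, D₀, hsel⟩ := select hG hW hW' he0 hn₁ hu
  obtain ⟨m, hm⟩ := exists_nat_ge (2 * (n₂ : ℝ) / e)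
  set M : ℕ := 2 * u.length + 1 + m + Z with hM
  refine ⟨max D₀ (max (q0 u ^ 2 + 2) (2 ^ (4 * κ * (M + 1)))), fun p k hp hD => ?_⟩
  have hD1 : D₀ ≤ p ^ k := (le_max_left _ _).trans hD
  have hD2 : q0 u ^ 2 + 2 ≤ p ^ k := ((le_max_left _ _).trans (le_max_right _ _)).trans hD
  have hD3 : 2 ^ (4 * κ * (M + 1)) ≤ p ^ k := ((le_max_right _ _).trans (le_max_right _ _)).trans hD
  obtain ⟨v, hv, hvq, g1, g2, g3⟩ := hsel p k hp hD1
  set d := p ^ k with hd
  have hcr := crossing (fun z => q0 z ^ 2 ≤ d) v u (by omega) (by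
    rw [hvq]
    nlinarith)
  obtain ⟨v₁, a, v₂, h1, h2, h3⟩ := hcr
  have h3' : d < q0 (u ++ v₁ ++ [a]) ^ 2 := not_le.1 h3
  have hz : u ++ v = (u ++ v₁) ++ a :: v₂ := by rw [h1, List.append_assoc]
  have h4 := g3 (u ++ v₁) a v₂ hz h2 h3'
  have hpv : Pos (v₁ ++ a :: v₂) := by rw [← h1]; exact hv
  have hpv₁ : Pos v₁ := fun b hb => hpv b (List.mem_append_left _ hb)
  have ha : 1 ≤ a := hpv a (List.mem_append_right _ List.mem_cons_self)
  have hpv₂ : Pos v₂ := fun b hb => hpv b (List.mem_append_right _ (List.mem_cons_of_mem _ hb))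
  -- the first part is long
  have h5 : M + 1 < (u ++ v₁).length + 1 := by
    have h6 : 2 ^ (4 * κ * (M + 1)) < 2 ^ (4 * κ * ((u ++ v₁).length + 1)) := lt_of_le_of_lt hD3 h4
    have h7 := (Nat.pow_lt_pow_iff_right (by norm_num : 1 < 2)).1 h6
    exact lt_of_mul_lt_mul_left h7 (Nat.zero_le _)
  rw [List.length_append] at h5
  have h6 : u.length + 1 ≤ v₁.length ∧ Z ≤ v₁.length ∧ m ≤ v₁.length := by
    refine ⟨?_, ?_, ?_⟩ <;> omega
  -- the second part is not too long
  have h7 : q0 v₂ ^ 2 ≤ d := by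
    have e1 : q0 ((u ++ v₁) ++ [a]) * q0 v₂ ≤ d := by
      have := q0_mul_le ((u ++ v₁) ++ [a]) v₂
      rw [List.append_assoc _ [a], List.singleton_append, ← hz, hvq] at this
      exact this
    generalize q0 ((u ++ v₁) ++ [a]) = A at e1 h3'
    generalize q0 v₂ = B at e1 ⊢
    by_contra hcon
    push Not at hcon
    have e2 : d * d < (A * B) ^ 2 := by
      rw [mul_pow]
      have : 0 < B ^ 2 := by omega
      calc d * d ≤ d * B ^ 2 := Nat.mul_le_mul_left _ hcon.le
        _ < A ^ 2 * B ^ 2 := Nat.mul_lt_mul_of_pos_right h3' this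
    have e3 : (A * B) ^ 2 ≤ d * d := by
      rw [sq]
      exact Nat.mul_le_mul e1 e1
    omega
  have h8 : v₂.length ≤ 8 * κ * v₁.length := by
    have e1 := two_pow_le_q0 hpv₂
    have e2 : (2 ^ (v₂.length / 2)) ^ 2 < 2 ^ (4 * κ * ((u ++ v₁).length + 1)) :=
      lt_of_le_of_lt ((Nat.pow_le_pow_left e1 2).trans h7) h4
    rw [← pow_mul] at e2
    have e3 := (Nat.pow_lt_pow_iff_right (by norm_num : 1 < 2)).1 e2
    rw [List.length_append] at e3
    have e4 : u.length + v₁.length + 1 ≤ 2 * v₁.length := by omega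
    have e5 : 4 * κ * (u.length + v₁.length + 1) ≤ 4 * κ * (2 * v₁.length) :=
      Nat.mul_le_mul_left _ e4
    have e6 : 4 * κ * (2 * v₁.length) = 8 * κ * v₁.length := by ring
    omega
  have h8' : (v₂.length : ℝ) ≤ 8 * κ * v₁.length := by exact_mod_cast h8
  have hn₂' : 2 * (n₂ : ℝ) ≤ e * v₁.length := by
    have e1 : (m : ℝ) ≤ v₁.length := by exact_mod_cast h6.2.2
    rw [div_le_iff₀ he0] at hm
    nlinarith
  refine ⟨v, hv, hvq, ?_, ?_⟩
  · rw [h1, List.length_append]
    omega
  intro v' v'' hvv w hw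
  have hcaseA : ∀ x y : List ℕ, v₁ = x ++ y → disc w x ≤ ε * x.length + (n₁ + 3 * L + 1 : ℕ) := by
    intro x y hxy
    have e1 : q0 (u ++ x) ≤ q0 (u ++ v₁) := by
      rw [hxy, ← List.append_assoc]
      apply q0_le_append_left
      intro b hb
      exact hpv₁ b (by rw [hxy]; exact List.mem_append_right _ hb)
    have e2 : q0 (u ++ x) ^ 2 ≤ d := (Nat.pow_le_pow_left e1 2).trans h2
    have e3 := g1 x (y ++ a :: v₂) (by rw [h1, hxy, List.append_assoc]) e2 w hw
    have e4 : e ≤ ε := by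
      rw [← heC]
      nlinarith
    have e5 : (0 : ℝ) ≤ x.length := Nat.cast_nonneg _
    have e6 : (0 : ℝ) ≤ L := Nat.cast_nonneg _
    unfold disc
    push_cast
    nlinarith
  have hsplit : v' ++ v'' = v₁ ++ a :: v₂ := by rw [← hvv, h1]
  rcases List.append_eq_append_iff.1 hsplit with ⟨as, e1, -⟩ | ⟨bs, e1, e2⟩
  · exact hcaseA v' as e1
  cases bs with
  | nil =>
    rw [List.append_nil] at e1
    rw [e1]
    exact hcaseA v₁ [] (by rw [List.append_nil])
  | cons b bs =>
    rw [List.cons_append, List.cons.injEq] at e2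
    obtain ⟨e2, e3⟩ := e2
    subst e2
    have f1 := g1 v₁ (a :: v₂) h1 h2 w hw
    have f2 := g2 (u ++ v₁ ++ [a]) v₂ (by rw [hz, List.append_assoc _ [a], List.singleton_append])
      h7 w hw
    have hpv'' : q0 v'' ≤ q0 v₂ := by
      rw [e3, ← q0_reverse v'', ← q0_reverse (bs ++ v''), List.reverse_append]
      apply q0_le_append_left
      apply Pos.reverse
      intro b hb
      exact hpv₂ b (by rw [e3]; exact List.mem_append_left _ hb)
    have f3 := g2 (u ++ v₁ ++ a :: bs) v'' (by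
      rw [hz, e3, List.append_assoc _ (a :: bs), List.cons_append])
      ((Nat.pow_le_pow_left hpv'' 2).trans h7) w hw
    have f4 := disc_left_le w bs v''
    rw [← e3] at f4
    have f5 := disc_append_le w [a] bs
    rw [List.singleton_append] at f5
    have f6 := disc_append_le w v₁ (a :: bs)
    have f7 := disc_single w a
    have f8 := hLw w hw
    have f9 : v''.length ≤ v₂.length := by rw [e3, List.length_append]; omega
    have f9' : (v''.length : ℝ) ≤ v₂.length := by exact_mod_cast f9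
    have f10 : v₁.length ≤ v'.length := by rw [e1, List.length_append]; omega
    have f10' : (v₁.length : ℝ) ≤ v'.length := by exact_mod_cast f10
    have f11 : (0 : ℝ) ≤ v₁.length := Nat.cast_nonneg _
    change disc w v₁ ≤ _ at f1
    change disc w v₂ ≤ _ at f2
    change disc w v'' ≤ _ at f3
    rw [← e1] at f6
    have f12 : e * v₁.length + 2 * (e * v₂.length) + e * v₁.length ≤ ε * v'.length := by
      have e4 : e * v₂.length ≤ e * (8 * κ * v₁.length) := mul_le_mul_of_nonneg_left h8' he0.le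
      have e5 : ε * v₁.length ≤ ε * v'.length := mul_le_mul_of_nonneg_left f10' hε.le
      have e6 : e * v₁.length + 2 * (e * (8 * κ * v₁.length)) + e * v₁.length =
          ε * v₁.length := by
        rw [← heC, hC]
        ring
      linarith
    have f13 : e * v''.length ≤ e * v₂.length := mul_le_mul_of_nonneg_left f9' he0.le
    push_cast
    linarith

end Pool.Agent.Q208.CN
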