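import Pool.Agent.Q208.CN.Birk

set_option autoImplicit false

/-!
# Typical words
-/

namespace Pool.Agent.Q208.CN

open Q261.CFD Set Filter Topology MeasureTheory Metric
open scoped ENNReal

lemma phi_sub' {w : List ℕ} (hw : Pos w) {x y : ℝ} (hx : 0 ≤ x) (hy : 0 ≤ y) :
    phi w x - phi w y = (-1) ^ w.length * ((x - y) * (D w x * D w y)) := by
  induction w with
  | nil => simp
  | cons a w ih =>
    have h1 : (1 : ℝ) ≤ a := by exact_mod_cast hw.head
    have h2 := phi_nonneg (w := w) hx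
    have h3 := phi_nonneg (w := w) hy
    have h6 : phi (a :: w) x - phi (a :: w) y =
        -(phi w x - phi w y) * (((a : ℝ) + phi w x)⁻¹ * ((a : ℝ) + phi w y)⁻¹) := by
      rw [phi_cons, phi_cons]
      have : (a : ℝ) + phi w x ≠ 0 := by positivity
      have : (a : ℝ) + phi w y ≠ 0 := by positivity
      field_simp
      ring
    rw [h6, ih hw.tail, D_cons, D_cons, List.length_cons, pow_succ]
    ring

lemma phi_between {w : List ℕ} (hw : Pos w) {t z : ℝ} (hz : z ∈ Icc 0 t) :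
    phi w z ∈ Icc (min (phi w 0) (phi w t)) (max (phi w 0) (phi w t)) := by
  have h1 := phi_sub' hw hz.1 le_rfl
  have h2 := phi_sub' hw (hz.1.trans hz.2) hz.1
  have d0 := D_pos hw (le_refl (0 : ℝ))
  have d1 := D_pos hw hz.1
  have d2 := D_pos hw (hz.1.trans hz.2)
  have h3 : 0 ≤ (z - 0) * (D w z * D w 0) := by have := hz.1; rw [sub_zero]; positivity
  have h4 : 0 ≤ (t - z) * (D w t * D w z) := by
    have : 0 ≤ t - z := by linarith [hz.2]
    positivity
  rw [mem_Icc, min_le_iff, le_max_iff]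
  rcases neg_one_pow_eq_or ℝ w.length with h | h <;> rw [h] at h1 h2
  · exact ⟨Or.inl (by linarith), Or.inr (by linarith)⟩
  · exact ⟨Or.inr (by linarith), Or.inl (by linarith)⟩

lemma image_Ioo {w : List ℕ} (hw : Pos w) {t : ℝ} (ht : 0 < t) :
    phi w '' Ioo 0 t = Ioo (min (phi w 0) (phi w t)) (max (phi w 0) (phi w t)) := by
  ext x
  constructor
  · rintro ⟨z, hz, rfl⟩
    have h1 := phi_sub' hw hz.1.le le_rfl
    have h2 := phi_sub' hw ht.le hz.1.le
    have d0 := D_pos hw (le_refl (0 : ℝ))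
    have d1 := D_pos hw hz.1.le
    have d2 := D_pos hw ht.le
    have h3 : 0 < (z - 0) * (D w z * D w 0) := by have := hz.1; rw [sub_zero]; positivity
    have h4 : 0 < (t - z) * (D w t * D w z) := by
      have : 0 < t - z := by linarith [hz.2]
      positivity
    rw [mem_Ioo, min_lt_iff, lt_max_iff]
    rcases neg_one_pow_eq_or ℝ w.length with h | h <;> rw [h] at h1 h2
    · exact ⟨Or.inl (by linarith), Or.inr (by linarith)⟩
    · exact ⟨Or.inr (by linarith), Or.inl (by linarith)⟩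
  · intro hx
    have h1 : uIcc (phi w 0) (phi w t) ⊆ phi w '' uIcc 0 t := by
      apply intermediate_value_uIcc
      rw [uIcc_of_le ht.le]
      exact (phi_continuousOn hw).mono fun y hy => hy.1
    obtain ⟨z, hz, rfl⟩ := h1 (Ioo_subset_Icc_self hx)
    rw [uIcc_of_le ht.le] at hz
    refine ⟨z, ⟨lt_of_le_of_ne hz.1 ?_, lt_of_le_of_ne hz.2 ?_⟩, rfl⟩
    · rintro rfl
      rw [mem_Ioo, min_lt_iff, lt_max_iff] at hx
      rcases hx.1 with h2 | h2 <;> rcases hx.2 with h3 | h3 <;> linarith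
    · rintro rfl
      rw [mem_Ioo, min_lt_iff, lt_max_iff] at hx
      rcases hx.1 with h2 | h2 <;> rcases hx.2 with h3 | h3 <;> linarith

lemma pre_dig_phi {w : List ℕ} (hw : Pos w) {z : ℝ} (hz : z ∈ Ioo (0 : ℝ) 1) :
    pre (dig (phi w z)) w.length = w := by
  rw [pre_eq_iff]
  intro i hi
  unfold dig
  rw [digit_phi hw hz hi]
  rfl

lemma cyl_ae {w : List ℕ} (hw : Pos w) : cyl w =ᵐ[volume] phi w '' Ioo 0 1 := by
  rw [← setOf_mem_eq (s := cyl w), ← setOf_mem_eq (s := phi w '' Ioo 0 1)]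
  apply eventuallyEq_set.2
  filter_upwards [ae_irrational] with y hy
  constructor
  · rintro ⟨h1, h2⟩
    have h3 := (dig_spec hy h1 w.length).2
    rw [(pre_eq_iff w (dig y)).2 h2] at h3
    exact ⟨_, iter_mem hy h1 _, h3.symm⟩
  · rintro ⟨z, hz, rfl⟩
    exact ⟨phi_mem_Ioo hw hz, (pre_eq_iff w _).1 (pre_dig_phi hw hz)⟩

lemma mu_eq {w : List ℕ} (hw : Pos w) : mu w = (Real.log 2)⁻¹ *
    |Real.log (((q0 w + p0 w : ℝ) * (q0 w + q1 w)) / (q0 w * (q0 w + q1 w + p0 w + p1 w)))| := by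
  have hl : 0 < Real.log 2 := Real.log_pos (by norm_num)
  have h0 : 0 ≤ phi w 0 := phi_nonneg le_rfl
  have h1 : 0 ≤ phi w 1 := phi_nonneg zero_le_one
  have h2 : gm (cyl w) = ENNReal.ofReal ((Real.log 2)⁻¹ *
      |Real.log (1 + phi w 0) - Real.log (1 + phi w 1)|) := by
    rw [gm_apply (measurableSet_cyl w), inter_eq_self_of_subset_left (fun y hy => hy.1),
      setLIntegral_congr (cyl_ae hw), image_Ioo hw one_pos, lintegral_rho (le_min h0 h1)
      min_le_max]
    congr 2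
    rcases le_total (phi w 0) (phi w 1) with h | h
    · rw [min_eq_left h, max_eq_right h, abs_sub_comm, abs_of_nonneg]
      have := Real.log_le_log (by linarith : (0:ℝ) < 1 + phi w 0) (by linarith : 1 + phi w 0 ≤ 1 + phi w 1)
      linarith
    · rw [min_eq_right h, max_eq_left h, abs_of_nonneg]
      have := Real.log_le_log (by linarith : (0:ℝ) < 1 + phi w 1) (by linarith : 1 + phi w 1 ≤ 1 + phi w 0)
      linarith
  unfold mu
  rw [h2, ENNReal.toReal_ofReal (by positivity), ← Real.log_div (by positivity) (by positivity)]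
  congr 3
  have hq : (1 : ℝ) ≤ q0 w := by exact_mod_cast q0_pos hw
  rw [phi_eq hw le_rfl, phi_eq hw zero_le_one, mul_zero, mul_zero, add_zero, add_zero, mul_one,
    mul_one]
  field_simp
  ring

lemma mu_reverse {w : List ℕ} (hw : Pos w) : mu w.reverse = mu w := by
  rw [mu_eq hw, mu_eq (Pos.reverse hw), q0_reverse, q1_reverse, p0_reverse, p1_reverse]
  congr 4
  · ring
  · ring

/-! ### bad sets -/

/-- the union of the cylinders of the words that are not good at the level `n` -/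
def Bad (g : ℕ → List ℕ → Prop) (n : ℕ) : Set ℝ :=
  ⋃ v ∈ {v : List ℕ | Pos v ∧ ¬ g n v}, phi v '' Ioo 0 1

lemma Bad_sub (g : ℕ → List ℕ → Prop) (n : ℕ) : Bad g n ⊆ Ioo 0 1 := by
  intro x hx
  simp only [Bad, mem_iUnion, mem_setOf_eq] at hx
  obtain ⟨v, ⟨hv, -⟩, z, hz, rfl⟩ := hx
  exact phi_mem_Ioo hv hz

lemma measurableSet_Bad (g : ℕ → List ℕ → Prop) (n : ℕ) : MeasurableSet (Bad g n) :=
  MeasurableSet.biUnion (to_countable _) fun _ hv => measurable_image hv.1 measurableSet_Ioo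
    Subset.rfl

theorem Bad_tendsto {g : ℕ → List ℕ → Prop} (hm : ∀ n m v, n ≤ m → g n v → g m v)
    (hae : ∀ᵐ y ∂(volume.restrict (Ioo (0 : ℝ) 1)), ∃ n, ∀ N, g n (pre (dig y) N)) :
    Tendsto (fun n => volume (Bad g n)) atTop (𝓝 0) := by
  have hanti : Antitone (Bad g) := by
    intro n m hnm
    apply biUnion_subset_biUnion_left
    rintro v ⟨hv, h1⟩
    exact ⟨hv, fun h2 => h1 (hm n m v hnm h2)⟩
  have h1 := tendsto_measure_iInter_atTop (μ := (volume : Measure ℝ)) (s := Bad g)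
    (fun n => (measurableSet_Bad g n).nullMeasurableSet) hanti ⟨0, by
      refine ne_top_of_le_ne_top ?_ (measure_mono (Bad_sub g 0))
      rw [Real.volume_Ioo]
      exact ENNReal.ofReal_ne_top⟩
  have h2 : volume (⋂ n, Bad g n) = 0 := by
    have h3 : (⋂ n, Bad g n) ⊆ {y | ¬ ∃ n, ∀ N, g n (pre (dig y) N)} ∩ Ioo 0 1 := by
      intro y hy
      rw [mem_iInter] at hy
      refine ⟨?_, Bad_sub g 0 (hy 0)⟩
      rintro ⟨n, hn⟩
      have h4 := hy n
      simp only [Bad, mem_iUnion, mem_setOf_eq] at h4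
      obtain ⟨v, ⟨hv, h5⟩, z, hz, rfl⟩ := h4
      apply h5
      have h6 := hn v.length
      rwa [pre_dig_phi hv hz] at h6
    have h4 := ae_iff.1 hae
    rw [Measure.restrict_apply₀' measurableSet_Ioo.nullMeasurableSet] at h4
    exact measure_mono_null h3 h4
  rwa [h2] at h1

/-- the discrepancies with respect to the words of `W` are at most `ε` times the length plus `n` -/
def Gd (W : Finset (List ℕ)) (ε : ℝ) (n : ℕ) (v : List ℕ) : Prop :=
  ∀ w ∈ W, |(occ w v : ℝ) - v.length * mu w| ≤ ε * v.length + n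

lemma Gd_mono (W : Finset (List ℕ)) (ε : ℝ) (n m : ℕ) (v : List ℕ) (h : n ≤ m)
    (h1 : Gd W ε n v) : Gd W ε m v := fun w hw => (h1 w hw).trans (by
  have : (n : ℝ) ≤ m := by exact_mod_cast h
  linarith)

lemma Gd_ae {W : Finset (List ℕ)} (hW : ∀ w ∈ W, w ≠ []) {ε : ℝ} (hε : 0 < ε) :
    ∀ᵐ y ∂(volume.restrict (Ioo (0 : ℝ) 1)), ∃ n, ∀ N, Gd W ε n (pre (dig y) N) := by
  have h1 : ∀ᵐ y ∂(volume.restrict (Ioo (0 : ℝ) 1)), ∀ w : List ℕ,
      Tendsto (fun N : ℕ => (cnt w (dig y) N : ℝ) / N) atTop (𝓝 (mu w)) := ae_all_iff.2 freq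
  filter_upwards [h1] with y hy
  have h2 : ∀ w : List ℕ, ∃ n : ℕ, w ∈ W → ∀ N : ℕ,
      |(occ w (pre (dig y) N) : ℝ) - N * mu w| ≤ ε * N + n := by
    intro w
    by_cases hw : w ∈ W
    swap
    · exact ⟨0, fun h => absurd h hw⟩
    have h3 := Metric.tendsto_atTop.1 (hy w) ε hε
    obtain ⟨N₀, hN₀⟩ := h3
    refine ⟨N₀ + 2 * w.length, fun _ N => ?_⟩
    have h4 := cnt_ge (hW w hw) (dig y) N
    have h5 := cnt_le (hW w hw) (dig y) N
    have h6 : |(cnt w (dig y) N : ℝ) - N * mu w| ≤ ε * N + N₀ := by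
      rcases le_or_gt N₀ N with h | h
      · rcases Nat.eq_zero_or_pos N with h0 | h0
        · subst h0
          simp [cnt]
        · have h7 := hN₀ N h
          rw [Real.dist_eq] at h7
          have hN : (0 : ℝ) < N := by exact_mod_cast h0
          have h8 : (cnt w (dig y) N : ℝ) - N * mu w = ((cnt w (dig y) N : ℝ) / N - mu w) * N := by
            field_simp
          rw [h8, abs_mul, abs_of_pos hN]
          have : (0 : ℝ) ≤ N₀ := Nat.cast_nonneg _
          nlinarith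
      · have h7 : cnt w (dig y) N ≤ N := by
          unfold cnt
          exact (Finset.card_filter_le _ _).trans (by simp)
        have h8 : (cnt w (dig y) N : ℝ) ≤ N := by exact_mod_cast h7
        have h9 := mu_nonneg w
        have h10 := mu_le_one w
        have h11 : (N : ℝ) ≤ N₀ := by exact_mod_cast h.le
        have h12 : (0 : ℝ) ≤ N := Nat.cast_nonneg _
        have h13 : (0 : ℝ) ≤ cnt w (dig y) N := Nat.cast_nonneg _
        rw [abs_le]
        constructor <;> nlinarith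
    have h4' : (occ w (pre (dig y) N) : ℝ) ≤ cnt w (dig y) N := by exact_mod_cast h4
    have h5' : (cnt w (dig y) N : ℝ) ≤ occ w (pre (dig y) N) + 2 * w.length := by exact_mod_cast h5
    push_cast
    rw [abs_le] at h6 ⊢
    constructor <;> linarith [h6.1, h6.2]
  choose n hn using h2
  refine ⟨W.sup n, fun N w hw => ?_⟩
  rw [pre_length]
  refine (hn w hw N).trans ?_
  have : n w ≤ W.sup n := Finset.le_sup hw
  have : (n w : ℝ) ≤ W.sup n := by exact_mod_cast this
  linarith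

lemma Gd_reverse {W : Finset (List ℕ)} (hW : ∀ w ∈ W, w ≠ []) (hW' : ∀ w ∈ W, Pos w) {ε : ℝ}
    {n : ℕ} {v : List ℕ} (h : Gd (W.image List.reverse) ε n v) : Gd W ε n v.reverse := by
  intro w hw
  have h1 := h w.reverse (Finset.mem_image_of_mem _ hw)
  rw [mu_reverse (hW' w hw)] at h1
  rw [List.length_reverse, ← occ_reverse (hW w hw), List.reverse_reverse]
  exact h1

/-- the continuants of the word is not too large -/
def Gr (κ : ℕ) (n : ℕ) (v : List ℕ) : Prop := q0 v ≤ 2 ^ (κ * (v.length + n))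

lemma Gr_mono (κ n m : ℕ) (v : List ℕ) (h : n ≤ m) (h1 : Gr κ n v) : Gr κ m v :=
  h1.trans (Nat.pow_le_pow_right (by norm_num) (Nat.mul_le_mul_left _ (by omega)))

lemma Gr_ae {κ : ℕ} (h : ∀ᵐ y ∂(volume.restrict (Ioo (0 : ℝ) 1)), ∃ n : ℕ, ∀ N : ℕ,
    q0 (pre (dig y) N) ≤ 2 ^ (κ * (N + n))) :
    ∀ᵐ y ∂(volume.restrict (Ioo (0 : ℝ) 1)), ∃ n, ∀ N, Gr κ n (pre (dig y) N) := by
  filter_upwards [h] with y ⟨n, hn⟩
  refine ⟨n, fun N => ?_⟩
  unfold Gr
  rw [pre_length]
  exact hn N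

end Pool.Agent.Q208.CN
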